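import Pool.Agent.U823.MV.Bounds
import Pool.Agent.Y41.XT.L1
import Pool.Agent.H297R2.Density

/-!
# The dimension in weight one: logarithms of cyclotomic numbers
-/

set_option autoImplicit false

namespace Pool.Agent.U823.MV

open Filter Topology Finset Module
open Pool.Agent.Y682.XT (lg)
open Pool.Agent.Y41.XT (std_val std_norm std_ne_one)

section

theorem conj_transfer {N : ℕ} (hN : 1 ≤ N) (F : Polynomial ℤ) (ζ : ℂ) (hζ : IsPrimitiveRoot ζ N)
    (h : Polynomial.aeval ζ F = 0) (m : ℕ) (hm : m.Coprime N) : Polynomial.aeval (ζ ^ m) F = 0 := by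
  have h1 : minpoly ℤ ζ ∣ F :=
    minpoly.isIntegrallyClosed_dvd (hζ.isIntegral (by omega)) h
  rw [hζ.minpoly_eq_pow_coprime hm] at h1
  obtain ⟨g, rfl⟩ := h1
  rw [map_mul, minpoly.aeval, zero_mul]

variable {N : ℕ} [NeZero N]

theorem lg_eq (u : ZMod N) : lg N u = Real.log ‖1 - (ZMod.stdAddChar u : ℂ)‖ := by
  rw [std_val]; rfl

/-- the vector of the logarithms of the conjugates -/
noncomputable def vec (j : ZMod N) : (ZMod N)ˣ → ℝ := fun b => lg N (b * j)

/-- the span of the vectors -/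
noncomputable def MM (N : ℕ) [NeZero N] : Submodule ℚ ((ZMod N)ˣ → ℝ) :=
  Submodule.span ℚ (Set.range (vec (N := N)))

/-- relations between the logarithms of the absolute values hold for the conjugates -/
theorem rel_int (hN : 1 ≤ N) (n : ZMod N → ℤ) (h : ∑ j, (n j : ℝ) * lg N j = 0) (b : (ZMod N)ˣ) :
    ∑ j, (n j : ℝ) * lg N (b * j) = 0 := by
  classical
  set ζ : ℂ := ZMod.stdAddChar (1 : ZMod N) with hζdef
  have hζ : IsPrimitiveRoot ζ N := by
    have h1 : ζ = Complex.exp (2 * Real.pi * Complex.I / N) := by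
      rw [hζdef]
      have := ZMod.stdAddChar_coe (N := N) 1
      push_cast at this
      rw [this]
      congr 1
      ring
    rw [h1]
    exact Complex.isPrimitiveRoot_exp N (by omega)
  have hpow : ∀ (c : (ZMod N)ˣ) (j : ZMod N),
      (ZMod.stdAddChar ((c : ZMod N) * j) : ℂ) = (ζ ^ (c : ZMod N).val) ^ j.val := by
    intro c j
    rw [hζdef, ← AddChar.map_nsmul_eq_pow, ← AddChar.map_nsmul_eq_pow]
    congr 1
    rw [nsmul_eq_mul, nsmul_eq_mul, mul_one, ZMod.natCast_zmod_val, ZMod.natCast_zmod_val]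
    ring
  let J : Finset (ZMod N) := univ.erase 0
  let P : (ZMod N → ℕ) → Polynomial ℤ := fun u => ∏ j ∈ J, (1 - Polynomial.X ^ j.val) ^ u j
  have hP : ∀ (u : ZMod N → ℕ) (z : ℂ), Polynomial.aeval z (P u) = ∏ j ∈ J, (1 - z ^ j.val) ^ u j := by
    intro u z
    simp [P, map_prod]
  have hlog : ∀ (u : ZMod N → ℕ) (c : (ZMod N)ˣ),
      Polynomial.aeval (ζ ^ (c : ZMod N).val) (P u) ≠ 0 ∧
      Real.log ‖Polynomial.aeval (ζ ^ (c : ZMod N).val) (P u)‖ =
        ∑ j ∈ J, (u j : ℝ) * lg N (c * j) := by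
    intro u c
    have hne : ∀ j ∈ J, (1 : ℂ) - (ζ ^ (c : ZMod N).val) ^ j.val ≠ 0 := by
      intro j hj
      rw [← hpow]
      apply one_sub_ne
      apply std_ne_one
      have hj0 : j ≠ 0 := (Finset.mem_erase.mp hj).1
      intro h0
      exact hj0 ((Units.mul_right_eq_zero c).mp h0)
    refine ⟨?_, ?_⟩
    · rw [hP]
      exact Finset.prod_ne_zero_iff.mpr fun j hj => pow_ne_zero _ (hne j hj)
    · rw [hP, norm_prod, Real.log_prod]
      · refine Finset.sum_congr rfl fun j hj => ?_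
        rw [norm_pow, Real.log_pow, lg_eq, hpow]
      · intro j hj
        rw [norm_pow]
        exact pow_ne_zero _ (norm_ne_zero_iff.mpr (hne j hj))
  let u : ZMod N → ℕ := fun j => (n j).toNat
  let w : ZMod N → ℕ := fun j => (-n j).toNat
  have hnuw : ∀ j, (n j : ℝ) = u j - w j := by
    intro j
    have h1 : n j = ((n j).toNat : ℤ) - ((-n j).toNat : ℤ) := by omega
    change (n j : ℝ) = (((n j).toNat : ℕ) : ℝ) - (((-n j).toNat : ℕ) : ℝ)
    calc (n j : ℝ) = ((((n j).toNat : ℤ) - ((-n j).toNat : ℤ) : ℤ) : ℝ) := by rw [← h1]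
      _ = _ := by push_cast; ring
  have hsum : ∀ c : (ZMod N)ˣ, ∑ j, (n j : ℝ) * lg N (c * j) =
      Real.log ‖Polynomial.aeval (ζ ^ (c : ZMod N).val) (P u)‖ -
        Real.log ‖Polynomial.aeval (ζ ^ (c : ZMod N).val) (P w)‖ := by
    intro c
    rw [(hlog u c).2, (hlog w c).2, ← Finset.sum_sub_distrib]
    have h0 : lg N ((c : ZMod N) * 0) = 0 := by
      rw [lg_eq, mul_zero, AddChar.map_zero_eq_one]
      simp
    rw [← Finset.sum_erase (s := univ) (a := (0 : ZMod N)) (f := fun j => (n j : ℝ) * lg N (c * j))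
      (by rw [h0, mul_zero])]
    refine Finset.sum_congr rfl fun j _ => ?_
    rw [hnuw]
    ring
  -- the algebraic identity
  have hconj : ∀ (v : ZMod N → ℕ) (m : ℕ),
      ((‖Polynomial.aeval (ζ ^ m) (P v)‖ ^ 2 : ℝ) : ℂ) =
        Polynomial.aeval (ζ ^ m) (P v * (P v).comp (Polynomial.X ^ (N - 1))) := by
    intro v m
    have hn1 : ‖ζ ^ m‖ = 1 := by rw [norm_pow, hζdef, std_norm, one_pow]
    have h1 : (ζ ^ m) ^ (N - 1) = (starRingEnd ℂ) (ζ ^ m) := by
      rw [conj_eq_inv hn1]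
      apply eq_inv_of_mul_eq_one_left
      rw [← pow_succ, Nat.sub_add_cancel hN, ← pow_mul, mul_comm, pow_mul, hζ.pow_eq_one, one_pow]
    rw [map_mul, Polynomial.aeval_comp, map_pow, Polynomial.aeval_X, h1]
    have h2 : Polynomial.aeval ((starRingEnd ℂ) (ζ ^ m)) (P v) =
        (starRingEnd ℂ) (Polynomial.aeval (ζ ^ m) (P v)) := by
      rw [hP, hP, map_prod]
      simp
    rw [h2, Complex.mul_conj, Complex.normSq_eq_norm_sq]
  set F : Polynomial ℤ := P u * (P u).comp (Polynomial.X ^ (N - 1)) -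
    P w * (P w).comp (Polynomial.X ^ (N - 1)) with hF
  have hFm : ∀ m, Polynomial.aeval (ζ ^ m) F =
      ((‖Polynomial.aeval (ζ ^ m) (P u)‖ ^ 2 : ℝ) : ℂ) -
        ((‖Polynomial.aeval (ζ ^ m) (P w)‖ ^ 2 : ℝ) : ℂ) := by
    intro m
    rw [hF, map_sub, hconj, hconj]
  have hiff : ∀ c : (ZMod N)ˣ, Polynomial.aeval (ζ ^ (c : ZMod N).val) F = 0 ↔
      ∑ j, (n j : ℝ) * lg N (c * j) = 0 := by
    intro c
    rw [hFm, hsum, sub_eq_zero, sub_eq_zero]
    have hp1 : 0 < ‖Polynomial.aeval (ζ ^ (c : ZMod N).val) (P u)‖ :=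
      norm_pos_iff.mpr (hlog u c).1
    have hp2 : 0 < ‖Polynomial.aeval (ζ ^ (c : ZMod N).val) (P w)‖ :=
      norm_pos_iff.mpr (hlog w c).1
    constructor
    · intro h1
      have h2 : ‖Polynomial.aeval (ζ ^ (c : ZMod N).val) (P u)‖ ^ 2 =
          ‖Polynomial.aeval (ζ ^ (c : ZMod N).val) (P w)‖ ^ 2 := by exact_mod_cast h1
      have h3 := (pow_left_inj₀ hp1.le hp2.le two_ne_zero).mp h2
      rw [h3]
    · intro h1
      have h2 := Real.log_injOn_pos hp1 hp2 h1
      rw [h2]
  have h1 : Polynomial.aeval (ζ ^ ((1 : (ZMod N)ˣ) : ZMod N).val) F = 0 := by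
    rw [hiff]
    rw [← h]
    refine Finset.sum_congr rfl fun j _ => ?_
    rw [Units.val_one, one_mul]
  rw [← hiff]
  have h2 : Polynomial.aeval ζ F = 0 := by
    have e1 : ζ ^ ((1 : (ZMod N)ˣ) : ZMod N).val = ζ := by
      have := hpow 1 1
      rw [Units.val_one, mul_one] at this
      have e2 : (ZMod.stdAddChar ((1 : (ZMod N)ˣ) : ZMod N) : ℂ) =
        ζ ^ ((1 : (ZMod N)ˣ) : ZMod N).val := by
        rw [hζdef, ← AddChar.map_nsmul_eq_pow]
        congr 1
        rw [nsmul_eq_mul, mul_one, ZMod.natCast_zmod_val]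
      rw [← e2, Units.val_one]
    rwa [e1] at h1
  exact conj_transfer hN F ζ hζ h2 _ (ZMod.val_coe_unit_coprime b)

/-- the evaluation at `1` is injective -/
theorem eval_inj (hN : 1 ≤ N) (v : (ZMod N)ˣ → ℝ) (hv : v ∈ MM N) (h : v 1 = 0) : v = 0 := by
  classical
  obtain ⟨q, rfl⟩ := (Submodule.mem_span_range_iff_exists_fun ℚ).mp hv
  -- common denominator
  set D : ℕ := ∏ j, (q j).den with hD
  have hD0 : (D : ℝ) ≠ 0 := by
    rw [hD]
    exact_mod_cast Finset.prod_ne_zero_iff.mpr fun j _ => (q j).den_nz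
  have hn : ∀ j, ∃ n : ℤ, (n : ℝ) = (D : ℝ) * (q j : ℝ) := by
    intro j
    refine ⟨(∏ i ∈ univ.erase j, ((q i).den : ℤ)) * (q j).num, ?_⟩
    have h1 : (D : ℝ) = (∏ i ∈ univ.erase j, ((q i).den : ℝ)) * ((q j).den : ℝ) := by
      rw [hD]
      push_cast
      rw [mul_comm, Finset.mul_prod_erase univ (fun i => ((q i).den : ℝ)) (mem_univ j)]
    have h2 : (q j : ℝ) * ((q j).den : ℝ) = ((q j).num : ℝ) := by
      exact_mod_cast Rat.mul_den_eq_num (q j)
    rw [h1]
    push_cast
    rw [← h2]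
    ring
  choose n hn using hn
  have happ : ∀ b : (ZMod N)ˣ, (D : ℝ) * (∑ j, q j • vec (N := N) j) b =
      ∑ j, (n j : ℝ) * lg N (b * j) := by
    intro b
    rw [Finset.sum_apply, Finset.mul_sum]
    refine Finset.sum_congr rfl fun j _ => ?_
    rw [Pi.smul_apply, Rat.smul_def, hn, vec]
    ring
  have h1 := happ 1
  rw [h, mul_zero] at h1
  have h2 : ∑ j, (n j : ℝ) * lg N j = 0 := by
    rw [h1]
    refine Finset.sum_congr rfl fun j _ => ?_
    rw [Units.val_one, one_mul]
  funext b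
  have h3 := happ b
  rw [rel_int hN n h2 b] at h3
  exact (mul_eq_zero.mp h3).resolve_left hD0

/-- sums over the units -/
theorem sum_units (χ : DirichletCharacter ℂ N) (g : ZMod N → ℂ) :
    ∑ u : (ZMod N)ˣ, χ (u : ZMod N) * g (u : ZMod N) = ∑ a : ZMod N, χ a * g a := by
  classical
  rw [← sum_subset (subset_univ ((univ : Finset (ZMod N)ˣ).map ⟨Units.val, Units.val_injective⟩))]
  · rw [sum_map]
    rfl
  · intro u _ hu
    rw [χ.map_nonunit, zero_mul]
    intro h
    apply hu
    rw [Finset.mem_map]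
    exact ⟨h.unit, mem_univ _, rfl⟩

theorem sum_char (χ : DirichletCharacter ℂ N) (h : χ ≠ 1) :
    ∑ u : (ZMod N)ˣ, χ (u : ZMod N) = 0 := by
  have h1 := sum_units χ (fun _ => 1)
  simp only [mul_one] at h1
  rw [h1]
  exact MulChar.sum_eq_zero_of_ne_one h

/-- nontrivial even characters -/
def EE (N : ℕ) : Type := {χ : DirichletCharacter ℂ N // χ ≠ 1 ∧ χ (-1) = 1}

noncomputable instance : Fintype (EE N) := by
  unfold EE
  classical
  have : Finite (DirichletCharacter ℂ N) := inferInstance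
  exact Fintype.ofFinite _

/-- the even Fourier coefficients -/
noncomputable def Phi (N : ℕ) [NeZero N] : ((ZMod N)ˣ → ℝ) →ₗ[ℚ] (EE N → ℂ) where
  toFun v := fun χ => ∑ b : (ZMod N)ˣ, χ.1 (b : ZMod N) * (v b : ℂ)
  map_add' := by
    intro v w
    funext χ
    simp only [Pi.add_apply]
    rw [← Finset.sum_add_distrib]
    refine Finset.sum_congr rfl fun b _ => ?_
    push_cast
    ring
  map_smul' := by
    intro q v
    funext χ
    simp only [Pi.smul_apply, RingHom.id_apply]
    rw [Finset.smul_sum]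
    refine Finset.sum_congr rfl fun b _ => ?_
    rw [Rat.smul_def, Rat.smul_def]
    push_cast
    ring

theorem Phi_apply (v : (ZMod N)ˣ → ℝ) (χ : EE N) :
    Phi N v χ = ∑ b : (ZMod N)ˣ, χ.1 (b : ZMod N) * (v b : ℂ) := rfl

theorem Phi_shift (j : ZMod N) (c : (ZMod N)ˣ) (χ : EE N) :
    χ.1 (c : ZMod N) * Phi N (vec ((c : ZMod N) * j)) χ = Phi N (vec j) χ := by
  rw [Phi_apply, Phi_apply, Finset.mul_sum]
  rw [← Equiv.sum_comp (Equiv.mulRight c) (fun b => χ.1 (b : ZMod N) * (vec (N := N) j b : ℂ))]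
  refine Finset.sum_congr rfl fun b _ => ?_
  rw [Equiv.coe_mulRight, Units.val_mul, map_mul, vec, vec, Units.val_mul, mul_assoc (b : ZMod N)]
  ring

theorem mem_MM (j : ZMod N) : vec j ∈ MM N := Submodule.subset_span ⟨j, rfl⟩

theorem finrank_span_le {V : Type*} [AddCommGroup V] [Module ℂ V] [Module ℚ V]
    [IsScalarTower ℚ ℂ V] (S : Submodule ℚ V) (hS : FiniteDimensional ℚ S) :
    finrank ℂ (Submodule.span ℂ (S : Set V)) ≤ finrank ℚ S := by
  classical
  let b := finBasis ℚ S
  let v : Fin (finrank ℚ S) → V := fun i => (b i : V)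
  have h1 : Submodule.span ℂ (S : Set V) ≤ Submodule.span ℂ (Set.range v) := by
    refine Submodule.span_le.mpr fun x hx => ?_
    have h2 := b.sum_repr ⟨x, hx⟩
    have h3 : x = ∑ i, (b.repr ⟨x, hx⟩ i) • v i := by
      have h5 := congrArg (Submodule.subtype S) h2
      rw [map_sum] at h5
      exact h5.symm
    rw [h3]
    refine Submodule.sum_mem _ fun i _ => ?_
    rw [← algebraMap_smul ℂ (b.repr ⟨x, hx⟩ i) (v i)]
    exact Submodule.smul_mem _ _ (Submodule.subset_span ⟨i, rfl⟩)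
  have h2 : FiniteDimensional ℂ (Submodule.span ℂ (Set.range v)) :=
    FiniteDimensional.span_of_finite ℂ (Set.finite_range v)
  calc finrank ℂ (Submodule.span ℂ (S : Set V)) ≤ finrank ℂ (Submodule.span ℂ (Set.range v)) :=
        Submodule.finrank_mono h1
    _ ≤ Fintype.card (Fin (finrank ℚ S)) := finrank_range_le_card v
    _ = _ := Fintype.card_fin _

/-- the image of the span of the vectors -/
theorem card_le_range (H : ∀ χ : EE N, ∃ j : ZMod N, Phi N (vec j) χ ≠ 0) :
    Fintype.card (EE N) ≤ finrank ℚ ((MM N).map (Phi N)) := by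
  classical
  have hMf : FiniteDimensional ℚ (MM N) :=
    FiniteDimensional.span_of_finite ℚ (Set.finite_range _)
  have hmf : FiniteDimensional ℚ ((MM N).map (Phi N)) := inferInstance
  refine le_trans ?_ (finrank_span_le ((MM N).map (Phi N)) hmf)
  have htop : Submodule.span ℂ (((MM N).map (Phi N) : Submodule ℚ (EE N → ℂ)) : Set (EE N → ℂ)) = ⊤ := by
    rw [eq_top_iff]
    have hsingle : ∀ χ : EE N, Pi.single χ (1 : ℂ) ∈
        Submodule.span ℂ (((MM N).map (Phi N) : Submodule ℚ (EE N → ℂ)) : Set (EE N → ℂ)) := by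
      intro χ
      obtain ⟨j, hj⟩ := H χ
      have h1 : ∑ c : (ZMod N)ˣ, (χ.1 (c : ZMod N)) • Phi N (vec ((c : ZMod N) * j)) =
          Pi.single χ ((Fintype.card (ZMod N)ˣ : ℂ) * Phi N (vec j) χ) := by
        funext ψ
        rw [Finset.sum_apply]
        simp only [Pi.smul_apply, smul_eq_mul]
        have h2 : ∀ c : (ZMod N)ˣ, χ.1 (c : ZMod N) * Phi N (vec ((c : ZMod N) * j)) ψ =
            (χ.1 * ψ.1⁻¹) (c : ZMod N) * Phi N (vec j) ψ := by
          intro c
          rw [← Phi_shift j c ψ, MulChar.mul_apply, MulChar.inv_apply_eq_inv']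
          have h3 : ψ.1 (c : ZMod N) ≠ 0 := (c.isUnit.map ψ.1).ne_zero
          field_simp
        rw [Finset.sum_congr rfl fun c _ => h2 c, ← Finset.sum_mul]
        by_cases hψ : ψ = χ
        · subst hψ
          rw [Pi.single_eq_same, mul_inv_cancel]
          congr 1
          have h4 : ∀ c : (ZMod N)ˣ, (1 : DirichletCharacter ℂ N) (c : ZMod N) = 1 := fun c =>
            MulChar.one_apply_coe c
          rw [Finset.sum_congr rfl fun c _ => h4 c]
          simp
        · rw [Pi.single_eq_of_ne hψ, sum_char, zero_mul]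
          intro h5
          apply hψ
          apply Subtype.ext
          rw [mul_inv_eq_one] at h5
          exact h5.symm
      have h6 : Pi.single χ (1 : ℂ) = ((Fintype.card (ZMod N)ˣ : ℂ) * Phi N (vec j) χ)⁻¹ •
          (Pi.single χ ((Fintype.card (ZMod N)ˣ : ℂ) * Phi N (vec j) χ) : EE N → ℂ) := by
        rw [← Pi.single_smul, smul_eq_mul, inv_mul_cancel₀]
        refine mul_ne_zero ?_ hj
        exact_mod_cast Fintype.card_ne_zero
      rw [h6, ← h1]
      refine Submodule.smul_mem _ _ (Submodule.sum_mem _ fun c _ => Submodule.smul_mem _ _ ?_)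
      exact Submodule.subset_span ⟨_, mem_MM _, rfl⟩
    intro x _
    have h7 : x = ∑ χ, x χ • (Pi.single χ (1 : ℂ) : EE N → ℂ) := by
      funext ψ
      rw [Finset.sum_apply]
      simp [Pi.single_apply]
    rw [h7]
    exact Submodule.sum_mem _ fun χ _ => Submodule.smul_mem _ _ (hsingle χ)
  rw [htop, finrank_top, Module.finrank_fintype_fun_eq_card]

/-! ### the values of the `L`-functions -/

theorem std_cast {f : ℕ} [NeZero f] (hf : f ∣ N) (b : (ZMod N)ˣ) :
    (ZMod.stdAddChar ((b : ZMod N) * ((N / f : ℕ) : ZMod N)) : ℂ) =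
      ZMod.stdAddChar ((ZMod.unitsMap hf b : (ZMod f)ˣ) : ZMod f) := by
  have h1 : (b : ZMod N) * ((N / f : ℕ) : ZMod N) =
      ((((b : ZMod N).val * (N / f) : ℕ) : ℤ) : ZMod N) := by
    rw [Int.cast_natCast, Nat.cast_mul, ZMod.natCast_zmod_val]
  have h2 : ((ZMod.unitsMap hf b : (ZMod f)ˣ) : ZMod f) = ((((b : ZMod N).val : ℕ) : ℤ) : ZMod f) := by
    rw [ZMod.unitsMap_def]
    simp only [Units.coe_map, MonoidHom.coe_coe]
    rw [ZMod.castHom_apply, Int.cast_natCast, ZMod.natCast_val]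
  rw [h1, h2, ZMod.stdAddChar_coe, ZMod.stdAddChar_coe]
  congr 1
  obtain ⟨k, hk⟩ := hf
  have hf0 : (f : ℂ) ≠ 0 := by exact_mod_cast NeZero.ne f
  have hN0 : N ≠ 0 := NeZero.ne N
  have hk0 : k ≠ 0 := by
    rintro rfl
    exact hN0 (by rw [hk, mul_zero])
  have hdiv : N / f = k := by
    rw [hk]; exact Nat.mul_div_cancel_left k (Nat.pos_of_ne_zero (NeZero.ne f))
  have hk0' : (k : ℂ) ≠ 0 := by exact_mod_cast hk0
  have hNc : (N : ℂ) = f * k := by exact_mod_cast hk
  rw [hdiv, hNc]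
  push_cast
  field_simp

theorem nonvanish (χ : EE N) : ∃ j : ZMod N, Phi N (vec j) χ ≠ 0 := by
  classical
  obtain ⟨χ, hχ1, hχe⟩ := χ
  set f := χ.conductor with hf
  have hfN : f ∣ N := χ.conductor_dvd_level
  have hf0 : NeZero f := ⟨χ.conductor_ne_zero⟩
  set ψ : DirichletCharacter ℂ f := χ.primitiveCharacter with hψ
  have hψp : ψ.IsPrimitive := χ.primitiveCharacter_isPrimitive
  have hcl : DirichletCharacter.changeLevel hfN ψ = χ := χ.changeLevel_primitiveCharacter
  have happ : ∀ b : (ZMod N)ˣ, χ (b : ZMod N) = ψ ((ZMod.unitsMap hfN b : (ZMod f)ˣ) : ZMod f) := by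
    intro b
    conv_lhs => rw [← hcl]
    rw [DirichletCharacter.changeLevel_eq_cast_of_dvd ψ hfN b, ZMod.unitsMap_def]
    rfl
  have hψ1 : ψ ≠ 1 := by
    intro h
    apply hχ1
    rw [← hcl, h, map_one]
  have hψe : ψ (-1) = 1 := by
    have h1 := happ (-1)
    rw [Units.val_neg, Units.val_one, hχe] at h1
    have h2 : ((ZMod.unitsMap hfN (-1) : (ZMod f)ˣ) : ZMod f) = -1 := by
      rw [ZMod.unitsMap_def]
      simp
    rw [h2] at h1
    exact h1.symm
  refine ⟨((N / f : ℕ) : ZMod N), ?_⟩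
  change ∑ b : (ZMod N)ˣ, χ (b : ZMod N) * (vec (((N / f : ℕ) : ZMod N)) b : ℂ) ≠ 0
  have h1 : ∀ b : (ZMod N)ˣ, χ (b : ZMod N) * (vec (((N / f : ℕ) : ZMod N)) b : ℂ) =
      (fun u : (ZMod f)ˣ => ψ (u : ZMod f) * (lg f (u : ZMod f) : ℂ)) (ZMod.unitsMap hfN b) := by
    intro b
    simp only
    rw [happ, vec, lg_eq, std_cast hfN b, ← lg_eq]
  rw [Finset.sum_congr rfl fun b _ => h1 b]
  rw [Finset.sum_comp (fun u : (ZMod f)ˣ => ψ (u : ZMod f) * (lg f (u : ZMod f) : ℂ))
    (fun b => ZMod.unitsMap hfN b)]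
  have hsurj := ZMod.unitsMap_surjective hfN
  have himg : (univ : Finset (ZMod N)ˣ).image (fun b => ZMod.unitsMap hfN b) = univ :=
    Finset.image_univ_of_surjective hsurj
  rw [himg]
  set K : ℕ := #{a ∈ (univ : Finset (ZMod N)ˣ) | ZMod.unitsMap hfN a = 1} with hK
  have hcard : ∀ u : (ZMod f)ˣ, #{a ∈ (univ : Finset (ZMod N)ˣ) | ZMod.unitsMap hfN a = u} = K := by
    intro u
    exact MonoidHom.card_fiber_eq_of_mem_range (ZMod.unitsMap hfN) (hsurj u) (hsurj 1)
  rw [Finset.sum_congr rfl fun u _ => by rw [hcard u], ← Finset.smul_sum]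
  have hK0 : K ≠ 0 := by
    rw [hK, Finset.card_ne_zero]
    exact ⟨1, by simp⟩
  have hL := Pool.Agent.Y41.XT.s_l1 f ψ hψp hψ1 hψe
  rw [nsmul_eq_mul]
  refine mul_ne_zero (by exact_mod_cast hK0) ?_
  rw [← norm_ne_zero_iff, ← hL]
  refine mul_ne_zero ?_ ?_
  · rw [norm_ne_zero_iff]
    exact DirichletCharacter.LFunction_apply_one_ne_zero hψ1
  · rw [Real.sqrt_ne_zero']
    exact_mod_cast Nat.pos_of_ne_zero (NeZero.ne f)

/-! ### the logarithms of the primes -/

theorem const_mem (p : ℕ) (hp : p.Prime) (hpN : p ∣ N) :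
    (fun _ : (ZMod N)ˣ => Real.log p) ∈ MM N := by
  have h1 : (fun _ : (ZMod N)ˣ => Real.log p) =
      ∑ k ∈ Finset.range (p - 1), vec (N := N) (((k + 1) * (N / p) : ℕ) : ZMod N) := by
    funext b
    rw [Finset.sum_apply]
    have hp0 : NeZero p := ⟨hp.ne_zero⟩
    set w : ℂ := ZMod.stdAddChar ((ZMod.unitsMap hpN b : (ZMod p)ˣ) : ZMod p) with hw
    have hwp : IsPrimitiveRoot w (p - 1 + 1) := by
      rw [Nat.sub_add_cancel hp.one_le]
      rw [hw, std_val]
      have h3 := Complex.isPrimitiveRoot_exp_of_coprime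
        ((ZMod.unitsMap hpN b : (ZMod p)ˣ) : ZMod p).val p hp.ne_zero (ZMod.val_coe_unit_coprime _)
      convert h3 using 2
      ring
    have h4 : ∀ k ∈ Finset.range (p - 1), vec (N := N) (((k + 1) * (N / p) : ℕ) : ZMod N) b =
        Real.log ‖1 - w ^ (k + 1)‖ := by
      intro k _
      rw [vec, lg_eq]
      congr 3
      have h5 : (b : ZMod N) * (((k + 1) * (N / p) : ℕ) : ZMod N) =
          (k + 1) • ((b : ZMod N) * ((N / p : ℕ) : ZMod N)) := by
        rw [nsmul_eq_mul]
        push_cast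
        ring
      rw [h5, AddChar.map_nsmul_eq_pow, std_cast hpN b]
    rw [Finset.sum_congr rfl h4]
    have h6 := hwp.prod_one_sub_pow_eq_order
    have h7 := congrArg norm h6
    rw [norm_prod] at h7
    have h8 : ‖(((p - 1 : ℕ) : ℂ) + 1)‖ = p := by
      have : (((p - 1 : ℕ) : ℂ) + 1) = ((p : ℕ) : ℂ) := by
        have := Nat.sub_add_cancel hp.one_le
        exact_mod_cast congrArg (fun n : ℕ => (n : ℂ)) this
      rw [this, Complex.norm_natCast]
    rw [h8] at h7
    rw [← h7, Real.log_prod]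
    intro k hk
    rw [norm_ne_zero_iff]
    apply one_sub_ne
    exact hwp.pow_ne_one_of_pos_of_lt (Nat.succ_ne_zero k) (by
      have := Finset.mem_range.mp hk
      omega)
  rw [h1]
  exact Submodule.sum_mem _ fun k _ => mem_MM _

theorem Phi_const (c : ℝ) : Phi N (fun _ => c) = 0 := by
  funext χ
  rw [Phi_apply, ← Finset.sum_mul, sum_char χ.1 χ.2.1, zero_mul]
  rfl

theorem card_primes_le :
    N.primeFactors.card ≤ finrank ℚ (LinearMap.ker ((Phi N).comp (MM N).subtype)) := by
  classical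
  have hMf : FiniteDimensional ℚ (MM N) :=
    FiniteDimensional.span_of_finite ℚ (Set.finite_range _)
  let c : N.primeFactors → LinearMap.ker ((Phi N).comp (MM N).subtype) := fun p =>
    ⟨⟨fun _ => Real.log p.1, const_mem p.1 (Nat.prime_of_mem_primeFactors p.2)
      (Nat.dvd_of_mem_primeFactors p.2)⟩, by
      rw [LinearMap.mem_ker, LinearMap.comp_apply]
      exact Phi_const _⟩
  let e : LinearMap.ker ((Phi N).comp (MM N).subtype) →ₗ[ℚ] ℂ :=
    { toFun := fun v => ((v.1.1 1 : ℝ) : ℂ)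
      map_add' := fun v w => by simp
      map_smul' := fun q v => by
        simp only [RingHom.id_apply]
        rw [Submodule.coe_smul, Submodule.coe_smul, Pi.smul_apply, Rat.smul_def, Rat.smul_def]
        push_cast
        rfl }
  have h1 : LinearIndependent ℚ (e ∘ c) := by
    exact Pool.Agent.H297R2.linearIndependent_log_prime (fun p : N.primeFactors => (p : ℕ))
      (fun p => Nat.prime_of_mem_primeFactors p.2) Subtype.val_injective
  have h2 : LinearIndependent ℚ c := LinearIndependent.of_comp e h1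
  have h3 := h2.fintype_card_le_finrank
  rwa [Fintype.card_coe] at h3

theorem finrank_MM : Fintype.card (EE N) + N.primeFactors.card ≤ finrank ℚ (MM N) := by
  have hMf : FiniteDimensional ℚ (MM N) :=
    FiniteDimensional.span_of_finite ℚ (Set.finite_range _)
  have h1 := card_le_range (N := N) nonvanish
  have h2 := card_primes_le (N := N)
  have h3 := LinearMap.finrank_range_add_finrank_ker ((Phi N).comp (MM N).subtype)
  rw [LinearMap.range_comp, Submodule.range_subtype] at h3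
  omega

theorem card_EE (hN : 3 ≤ N) : N.totient / 2 ≤ Fintype.card (EE N) + 1 := by
  classical
  have hne : (-1 : ZMod N) ≠ 1 := by
    have : Fact (2 < N) := ⟨hN⟩
    exact ZMod.neg_one_ne_one
  have h1 := DirichletCharacter.sum_characters_eq_zero ℂ hne
  have h2 : Fintype.card (DirichletCharacter ℂ N) = N.totient := by
    rw [← Nat.card_eq_fintype_card]
    exact DirichletCharacter.card_eq_totient_of_hasEnoughRootsOfUnity ℂ N
  have h3 : ∀ χ : DirichletCharacter ℂ N, χ (-1) = if χ (-1) = 1 then 1 else -1 := by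
    intro χ
    split_ifs with h
    · exact h
    · rcases χ.even_or_odd with h4 | h4
      · exact absurd h4 h
      · exact h4
  rw [Finset.sum_congr rfl fun χ _ => h3 χ, Finset.sum_ite, Finset.sum_const, Finset.sum_const,
    nsmul_eq_mul, nsmul_eq_mul, mul_one] at h1
  have h4 : #{χ : DirichletCharacter ℂ N | χ (-1) = 1} = #{χ : DirichletCharacter ℂ N | ¬ χ (-1) = 1} := by
    have : ((#{χ : DirichletCharacter ℂ N | χ (-1) = 1} : ℕ) : ℂ) =
        ((#{χ : DirichletCharacter ℂ N | ¬ χ (-1) = 1} : ℕ) : ℂ) := by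
      linear_combination h1
    exact_mod_cast this
  have h5 := Finset.card_filter_add_card_filter_not (s := (univ : Finset (DirichletCharacter ℂ N)))
    (fun χ => χ (-1) = 1)
  rw [Finset.card_univ, h2] at h5
  have h6 : #{χ : DirichletCharacter ℂ N | χ (-1) = 1} ≤ Fintype.card (EE N) + 1 := by
    have h7 : ({χ : DirichletCharacter ℂ N | χ (-1) = 1} : Finset _) ⊆
        insert 1 ((univ : Finset (EE N)).image (fun χ => χ.1)) := by
      intro χ hχ
      rw [Finset.mem_filter] at hχ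
      by_cases h8 : χ = 1
      · rw [h8]; exact Finset.mem_insert_self _ _
      · exact Finset.mem_insert_of_mem (Finset.mem_image.mpr ⟨⟨χ, h8, hχ.2⟩, mem_univ _, rfl⟩)
    calc _ ≤ _ := Finset.card_le_card h7
      _ ≤ _ := Finset.card_insert_le _ _
      _ ≤ _ := Nat.add_le_add_right (Finset.card_image_le.trans (by rw [Finset.card_univ])) 1
  omega

/-- the real part in weight one -/
theorem finrank_RR_one (hN : 3 ≤ N) :
    N.totient / 2 + N.primeFactors.card ≤ finrank ℚ (RR N 1) + 1 := by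
  have hN1 : 1 ≤ N := by omega
  have hMf : FiniteDimensional ℚ (MM N) :=
    FiniteDimensional.span_of_finite ℚ (Set.finite_range _)
  have hRf := RR_fin N 1 hN1
  have hmem : ∀ v ∈ MM N, ((v 1 : ℝ) : ℂ) ∈ RR N 1 := by
    intro v hv
    induction hv using Submodule.span_induction with
    | mem v hv =>
      obtain ⟨j, rfl⟩ := hv
      refine ⟨?_, Complex.ofReal_im _⟩
      rw [vec, lg_eq, Units.val_one, one_mul]
      by_cases hj : j = 0
      · rw [hj, AddChar.map_zero_eq_one]
        simp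
      · apply log_norm_mem hN1 _ (std_ne_one hj)
        rw [← AddChar.map_nsmul_eq_pow, nsmul_eq_mul, ZMod.natCast_self, zero_mul,
          AddChar.map_zero_eq_one]
    | zero => simp
    | add v w _ _ hv hw =>
      rw [Pi.add_apply, Complex.ofReal_add]
      exact add_mem hv hw
    | smul q v _ hv =>
      have : (((q • v) 1 : ℝ) : ℂ) = q • ((v 1 : ℝ) : ℂ) := by
        rw [Pi.smul_apply, Rat.smul_def, Rat.smul_def]
        push_cast
        rfl
      rw [this]
      exact Submodule.smul_mem _ q hv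
  let e : MM N →ₗ[ℚ] RR N 1 :=
    { toFun := fun v => ⟨((v.1 1 : ℝ) : ℂ), hmem v.1 v.2⟩
      map_add' := fun v w => by
        apply Subtype.ext
        simp
      map_smul' := fun q v => by
        apply Subtype.ext
        simp only [RingHom.id_apply]
        rw [Submodule.coe_smul, Submodule.coe_smul, Pi.smul_apply, Rat.smul_def, Rat.smul_def]
        push_cast
        rfl }
  have he : Function.Injective e := by
    rw [← LinearMap.ker_eq_bot, eq_bot_iff]
    intro v hv
    rw [LinearMap.mem_ker] at hv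
    have h1 : ((v.1 1 : ℝ) : ℂ) = 0 := congrArg Subtype.val hv
    rw [Submodule.mem_bot]
    apply Subtype.ext
    exact eval_inj hN1 v.1 v.2 (by exact_mod_cast h1)
  have h1 := LinearMap.finrank_le_finrank_of_injective he
  have h2 := finrank_MM (N := N)
  have h3 := card_EE hN
  omega

end

end Pool.Agent.U823.MV
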