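import Pool.Agent.U823.MV.One

/-!
# Lower bounds for the dimensions
-/

set_option autoImplicit false

namespace Pool.Agent.U823.MV

open Filter Topology Finset Module
open Pool.Agent.H301R2.SSE (QB mem_QB Lt Lt_one Lt_log)

theorem ks_mono {Z T : Submodule ℚ ℂ} (h : Z ≤ T) : ks Z ≤ ks T := Submodule.span_mono h

theorem grow_iter (A : Submodule ℚ ℂ) (W : ℕ → Submodule ℚ ℂ) (hA : FiniteDimensional ℚ A)
    (hW : ∀ w, FiniteDimensional ℚ (W w)) (hlog : ∀ x ∈ A, IsAlgebraic ℚ (Complex.exp x))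
    (hA0 : A ≠ ⊥) (h1 : A ≤ W 1) (hmul : ∀ w, 1 ≤ w → ∀ x ∈ W w, ∀ y ∈ A, x * y ∈ W (w + 1))
    (w : ℕ) (hw : 1 ≤ w) :
    finrank ℚ A + (w - 1) * (finrank ℚ A ^ 2 / 4) ≤ finrank QB (ks (W w)) := by
  induction w, hw using Nat.le_induction with
  | base =>
    rw [Nat.sub_self, zero_mul, add_zero, ← finrank_ks_eq A hA hlog]
    have := ks_fin (W 1) (hW 1)
    exact Submodule.finrank_mono (ks_mono h1)
  | succ w hw ih =>
    have h2 : finrank ℚ A / 2 ≤ finrank QB (ks (W w)) :=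
      (Nat.div_le_self _ _).trans ((Nat.le_add_right _ _).trans ih)
    have h3 := step A (W w) (W (w + 1)) hA (hW w) (hW (w + 1)) hlog hA0 h2 (hmul w hw)
    obtain ⟨k, rfl⟩ : ∃ k, w = k + 1 := ⟨w - 1, by omega⟩
    simp only [Nat.add_sub_cancel] at ih ⊢
    calc finrank ℚ A + (k + 1) * (finrank ℚ A ^ 2 / 4)
        = (finrank ℚ A + k * (finrank ℚ A ^ 2 / 4)) + finrank ℚ A ^ 2 / 4 := by ring
      _ ≤ _ := (Nat.add_le_add_right ih _).trans h3

theorem growth_mono {a b : ℕ} (h : a ≤ b) (w : ℕ) :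
    a + (w - 1) * (a ^ 2 / 4) ≤ b + (w - 1) * (b ^ 2 / 4) := by
  have h1 : a ^ 2 / 4 ≤ b ^ 2 / 4 := Nat.div_le_div_right (Nat.pow_le_pow_left h 2)
  exact add_le_add h (Nat.mul_le_mul_left _ h1)

/-- the first bound -/
theorem bound_one (N : ℕ) (hN : 1 ≤ N) (s : ℕ) (hs : 1 ≤ s) (hs' : s ≤ finrank ℚ (ZZ N 1)) (w : ℕ)
    (hw : 1 ≤ w) : s + (w - 1) * (s ^ 2 / 4) ≤ finrank QB (ks (ZZ N w)) := by
  refine (growth_mono hs' w).trans (grow_iter (ZZ N 1) (ZZ N) (ZZ_fin N 1 hN)
    (fun w => ZZ_fin N w hN) (alg_exp hN) ?_ le_rfl ?_ w hw)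
  · intro h
    rw [h, finrank_bot] at hs'
    omega
  · intro w _ x hx y hy
    exact one_mul_mem hN y x hy hx

theorem RR_fin (N w : ℕ) (hN : 1 ≤ N) : FiniteDimensional ℚ (RR N w) := by
  have hf := ZZ_fin N w hN
  exact Submodule.finiteDimensional_of_le (RR_le N w)

theorem II_fin (N w : ℕ) (hN : 1 ≤ N) : FiniteDimensional ℚ (II N w) := by
  have hf := ZZ_fin N w hN
  exact Submodule.finiteDimensional_of_le (II_le N w)

theorem bound_real (N : ℕ) (hN : 1 ≤ N) (r : ℕ) (hr : 1 ≤ r) (hr' : r ≤ finrank ℚ (RR N 1)) (w : ℕ)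
    (hw : 1 ≤ w) : r + (w - 1) * (r ^ 2 / 4) ≤ finrank QB (ks (RR N w)) := by
  refine (growth_mono hr' w).trans (grow_iter (RR N 1) (RR N) (RR_fin N 1 hN)
    (fun w => RR_fin N w hN) (fun x hx => alg_exp hN x hx.1) ?_ le_rfl ?_ w hw)
  · intro h
    rw [h, finrank_bot] at hr'
    omega
  · intro w _ x hx y hy
    refine ⟨one_mul_mem hN y x hy.1 hx.1, ?_⟩
    rw [Complex.mul_im, hx.2, hy.2]
    simp

theorem bound_imag (N : ℕ) (hN : 3 ≤ N) (r : ℕ) (hr : 1 ≤ r) (hr' : r ≤ finrank ℚ (RR N 1)) (w : ℕ)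
    (hw : 2 ≤ w) : r + (w - 2) * (r ^ 2 / 4) ≤ finrank QB (ks (II N w)) := by
  have hN1 : 1 ≤ N := by omega
  obtain ⟨k, rfl⟩ : ∃ k, w = k + 1 := ⟨w - 1, by omega⟩
  have h1 := bound_real N hN1 r hr hr' k (by omega)
  have e1 : k + 1 - 2 = k - 1 := by omega
  rw [e1]
  refine h1.trans ?_
  have hp := pi_mem hN
  set y : ℂ := (Real.pi : ℂ) * Complex.I with hy
  have hy0 : y ≠ 0 := mul_ne_zero (by exact_mod_cast Real.pi_ne_zero) Complex.I_ne_zero
  have hf1 := ks_fin (RR N k) (RR_fin N k hN1)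
  have hf2 := ks_fin (II N (k + 1)) (II_fin N (k + 1) hN1)
  have hf3 : FiniteDimensional QB (Submodule.span QB {y}) :=
    FiniteDimensional.span_of_finite QB (Set.finite_singleton y)
  have hX : ks (RR N k) ≠ ⊥ := by
    intro h
    rw [h, finrank_bot] at h1
    omega
  have hV : Submodule.span QB {y} ≠ ⊥ := by
    rw [Ne, Submodule.span_singleton_eq_bot]
    exact hy0
  have h2 := cauchy_davenport (ks (RR N k)) (Submodule.span QB {y}) hX hV
  rw [finrank_span_singleton hy0] at h2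
  have h3 : ks (RR N k) * Submodule.span QB {y} ≤ ks (II N (k + 1)) := by
    rw [ks, Submodule.span_mul_span, Submodule.span_le]
    rintro _ ⟨x, hx, z, hz, rfl⟩
    rw [Set.mem_singleton_iff] at hz
    subst hz
    refine mem_ks ⟨one_mul_mem hN1 _ x hp hx.1, ?_⟩
    have hx2 : x.im = 0 := hx.2
    rw [hy]
    simp [hx2]
  have h4 := Submodule.finrank_mono h3
  omega

/-- the second bound -/
theorem bound_two (N : ℕ) (hN : 3 ≤ N) (r : ℕ) (hr : 1 ≤ r) (hr' : r ≤ finrank ℚ (RR N 1)) (w : ℕ)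
    (hw : 2 ≤ w) : 2 * r + (2 * w - 3) * (r ^ 2 / 4) ≤ finrank ℚ (ZZ N w) := by
  have hN1 : 1 ≤ N := by omega
  have h1 := bound_real N hN1 r hr hr' w (by omega)
  have h2 := bound_imag N hN r hr hr' w hw
  have h3 := finrank_ks_le (RR N w) (RR_fin N w hN1)
  have h4 := finrank_ks_le (II N w) (II_fin N w hN1)
  have h5 := finrank_RR_II N w hN1
  obtain ⟨k, rfl⟩ : ∃ k, w = k + 2 := ⟨w - 2, by omega⟩
  have e1 : k + 2 - 1 = k + 1 := by omega
  have e2 : k + 2 - 2 = k := by omega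
  have e3 : 2 * (k + 2) - 3 = 2 * k + 1 := by omega
  rw [e1] at h1
  rw [e2] at h2
  rw [e3]
  have h6 : 2 * r + (2 * k + 1) * (r ^ 2 / 4) =
      (r + (k + 1) * (r ^ 2 / 4)) + (r + k * (r ^ 2 / 4)) := by ring
  omega

theorem pi_mem' {N : ℕ} (hN : 3 ≤ N) : finrank ℚ (RR N 1) + 1 ≤ finrank ℚ (ZZ N 1) := by
  have hN1 : 1 ≤ N := by omega
  have h1 := finrank_RR_II N 1 hN1
  have h2 : 1 ≤ finrank ℚ (II N 1) := by
    have := II_fin N 1 hN1
    apply Submodule.one_le_finrank_iff.mpr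
    intro h
    have h3 : (Real.pi : ℂ) * Complex.I ∈ II N 1 := ⟨pi_mem hN, by simp⟩
    rw [h, Submodule.mem_bot] at h3
    exact mul_ne_zero (by exact_mod_cast Real.pi_ne_zero) Complex.I_ne_zero h3
  omega

/-! ### level two -/

theorem zeta_two_mem : ((Real.pi ^ 2 / 6 : ℝ) : ℂ) ∈ ZZ 2 2 ∧
    Tendsto (tr [(2, 1)]) atTop (𝓝 ((Real.pi ^ 2 / 6 : ℝ) : ℂ)) := by
  have h1 : Tendsto (tr [(2, 1)]) atTop (𝓝 ((Real.pi ^ 2 / 6 : ℝ) : ℂ)) := by
    have h2 := hasSum_zeta_two.tendsto_sum_nat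
    have h3 := (Complex.continuous_ofReal.tendsto _).comp h2
    refine h3.congr fun m => ?_
    rw [tr_cons' (2, 1) (by norm_num)]
    simp only [Function.comp]
    push_cast
    refine Finset.sum_congr rfl fun j _ => ?_
    rw [tr_nil]; simp
  refine ⟨mem_ZZ ?_ h1, h1⟩
  refine ⟨by simp, ?_, by simp, ?_⟩
  · intro x hx
    rw [List.mem_singleton] at hx
    subst hx
    norm_num
  · intro x hx h
    simp at hx
    rw [← hx] at h
    have := congrArg Prod.fst h
    norm_num at this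

theorem log_two_mem : ((Real.log 2 : ℝ) : ℂ) ∈ ZZ 2 1 := by
  have h := log_norm_mem (N := 2) (by norm_num) (z := -1) (by norm_num) (by norm_num)
  have e : ‖(1 : ℂ) - -1‖ = 2 := by norm_num
  rwa [e] at h

theorem indep_log_pi (a b : QB) (h : (a : ℂ) * ((Real.log 2 : ℝ) : ℂ) + b * ((Real.pi : ℂ) * Complex.I) = 0) :
    a = 0 ∧ b = 0 := by
  have hli : LinearIndependent ℚ ![((Real.log 2 : ℝ) : ℂ), (Real.pi : ℂ) * Complex.I] := by
    rw [LinearIndependent.pair_iff]
    intro s t hst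
    rw [Rat.smul_def, Rat.smul_def] at hst
    have hl2 : Real.log 2 ≠ 0 := (Real.log_pos (by norm_num)).ne'
    have hst' : ((s * Real.log 2 : ℝ) : ℂ) + ((t * Real.pi : ℝ) : ℂ) * Complex.I = 0 := by
      rw [← hst]
      push_cast
      ring
    have h1 := congrArg Complex.re hst'
    have h2 := congrArg Complex.im hst'
    rw [Complex.add_re, Complex.ofReal_re, Complex.re_ofReal_mul, Complex.I_re, mul_zero, add_zero,
      Complex.zero_re] at h1
    rw [Complex.add_im, Complex.ofReal_im, Complex.im_ofReal_mul, Complex.I_im, mul_one, zero_add,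
      Complex.zero_im] at h2
    refine ⟨?_, ?_⟩
    · exact_mod_cast (mul_eq_zero.mp h1).resolve_right hl2
    · exact_mod_cast (mul_eq_zero.mp h2).resolve_right Real.pi_ne_zero
  have halg : ∀ i, IsAlgebraic ℚ (Complex.exp (![((Real.log 2 : ℝ) : ℂ), (Real.pi : ℂ) * Complex.I] i)) := by
    intro i
    fin_cases i
    · simp only [Fin.zero_eta, Matrix.cons_val_zero]
      rw [← Complex.ofReal_exp, Real.exp_log (by norm_num)]
      exact_mod_cast isAlgebraic_natCast (R := ℚ) (A := ℂ) 2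
    · simp only [Fin.mk_one, Matrix.cons_val_one, Matrix.cons_val_zero]
      rw [Complex.exp_pi_mul_I]
      exact isAlgebraic_one.neg
  have h1 := Pool.Agent.H297R2.baker _ halg hli ![(a : ℂ), (b : ℂ)] (by
    intro i
    fin_cases i
    · exact mem_QB.1 a.2
    · exact mem_QB.1 b.2) (by
    rw [Fin.sum_univ_two]
    simpa using h)
  have h2 := h1 0
  have h3 := h1 1
  simp at h2 h3
  exact ⟨h2, h3⟩

/-- `log² 2` and `π²` are independent over the algebraic numbers -/
theorem indep_squares : LinearIndependent QB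
    ![((Real.log 2 : ℝ) : ℂ) ^ 2, ((Real.pi ^ 2 / 6 : ℝ) : ℂ)] := by
  rw [LinearIndependent.pair_iff]
  intro a b hab
  rw [Algebra.smul_def, Algebra.smul_def] at hab
  have hab' : (a : ℂ) * ((Real.log 2 : ℝ) : ℂ) ^ 2 + (b : ℂ) * ((Real.pi ^ 2 / 6 : ℝ) : ℂ) = 0 := hab
  have hpi : (Real.pi : ℂ) ≠ 0 := by exact_mod_cast Real.pi_ne_zero
  by_cases ha : a = 0
  · refine ⟨ha, ?_⟩
    rw [ha] at hab'
    push_cast at hab'
    rw [zero_mul, zero_add] at hab'
    rcases mul_eq_zero.mp hab' with h | h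
    · exact_mod_cast h
    · exfalso
      apply hpi
      have h5 : (Real.pi : ℂ) ^ 2 = 0 := by
        linear_combination 6 * h
      exact pow_eq_zero_iff (two_ne_zero) |>.mp h5
  · exfalso
    obtain ⟨c, hc⟩ := IsAlgClosed.exists_pow_nat_eq (b / (6 * a)) (n := 2) (by norm_num)
    have ha' : (a : ℂ) ≠ 0 := by exact_mod_cast ha
    have hc' : (c : ℂ) ^ 2 = (b : ℂ) / (6 * a) := by
      have := congrArg (fun z : QB => (z : ℂ)) hc
      push_cast at this
      exact this
    have h1 : (((Real.log 2 : ℝ) : ℂ) - c * ((Real.pi : ℂ) * Complex.I)) *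
        (((Real.log 2 : ℝ) : ℂ) + c * ((Real.pi : ℂ) * Complex.I)) = 0 := by
      have h2 : ((Real.log 2 : ℝ) : ℂ) ^ 2 + (c : ℂ) ^ 2 * (Real.pi : ℂ) ^ 2 = 0 := by
        rw [hc']
        push_cast at hab' ⊢
        field_simp
        linear_combination 6 * hab'
      linear_combination h2 - (c : ℂ) ^ 2 * (Real.pi : ℂ) ^ 2 * Complex.I_sq
    rcases mul_eq_zero.mp h1 with h | h
    · have := indep_log_pi 1 (-c) (by
        push_cast
        linear_combination h)
      exact one_ne_zero this.1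
    · have := indep_log_pi 1 c (by
        push_cast
        linear_combination h)
      exact one_ne_zero this.1

theorem bound_level_two (w : ℕ) (hw : 1 ≤ w) : w / 2 + 1 ≤ finrank QB (ks (ZZ 2 w)) := by
  have hf : ∀ w, FiniteDimensional QB (ks (ZZ 2 w)) := fun w => ks_fin _ (ZZ_fin 2 w (by norm_num))
  set T : Submodule QB ℂ := Submodule.span QB
    (Set.range ![((Real.log 2 : ℝ) : ℂ) ^ 2, ((Real.pi ^ 2 / 6 : ℝ) : ℂ)]) with hT
  have hTf : FiniteDimensional QB T := FiniteDimensional.span_of_finite QB (Set.finite_range _)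
  have hT2 : finrank QB T = 2 := by
    rw [hT, finrank_span_eq_card indep_squares, Fintype.card_fin]
  have hl2 : ((Real.log 2 : ℝ) : ℂ) ≠ 0 := by
    exact_mod_cast (Real.log_pos (by norm_num)).ne'
  have hT0 : T ≠ ⊥ := by
    intro h
    rw [h, finrank_bot] at hT2
    omega
  have hstep : ∀ w, ks (ZZ 2 w) ≠ ⊥ →
      finrank QB (ks (ZZ 2 w)) + 1 ≤ finrank QB (ks (ZZ 2 (w + 2))) := by
    intro w h0
    have := hf w
    have h1 := cauchy_davenport (ks (ZZ 2 w)) T h0 hT0
    rw [hT2] at h1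
    have h2 : ks (ZZ 2 w) * T ≤ ks (ZZ 2 (w + 2)) := by
      rw [ks, hT, Submodule.span_mul_span, Submodule.span_le]
      rintro _ ⟨x, hx, z, ⟨i, rfl⟩, rfl⟩
      apply mem_ks
      fin_cases i
      · simp only [Fin.zero_eta, Matrix.cons_val_zero]
        have h3 := one_mul_mem (by norm_num) _ _ log_two_mem
          (one_mul_mem (by norm_num) _ _ log_two_mem hx)
        convert h3 using 1
        ring
      · simp only [Fin.mk_one, Matrix.cons_val_one, Matrix.cons_val_zero]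
        have h3 := letter_mul (N := 2) (w := w) (by norm_num) (2, 1) (by norm_num) (by norm_num)
          (by simp) _ zeta_two_mem.2 x hx
        rw [mul_comm]
        exact h3
    have h3 := Submodule.finrank_mono h2
    omega
  have h1 : 1 ≤ finrank QB (ks (ZZ 2 1)) := by
    have := hf 1
    apply Submodule.one_le_finrank_iff.mpr
    intro h
    have h3 := mem_ks log_two_mem
    rw [h, Submodule.mem_bot] at h3
    exact hl2 h3
  have h2 : 2 ≤ finrank QB (ks (ZZ 2 2)) := by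
    have := hf 2
    refine hT2.symm.le.trans (Submodule.finrank_mono ?_)
    rw [hT, Submodule.span_le]
    rintro _ ⟨i, rfl⟩
    apply mem_ks
    fin_cases i
    · simp only [Fin.zero_eta, Matrix.cons_val_zero]
      rw [sq]
      exact one_mul_mem (by norm_num) _ _ log_two_mem log_two_mem
    · simp only [Fin.mk_one, Matrix.cons_val_one, Matrix.cons_val_zero]
      exact zeta_two_mem.1
  induction w using Nat.strong_induction_on with
  | _ w ih =>
    rcases Nat.lt_or_ge w 3 with h | h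
    · interval_cases w
      · exact h1
      · exact h2
    · obtain ⟨k, rfl⟩ : ∃ k, w = k + 2 := ⟨w - 2, by omega⟩
      have h3 := ih k (by omega) (by omega)
      have h4 := hstep k (by
        intro h5
        rw [h5, finrank_bot] at h3
        omega)
      omega

end Pool.Agent.U823.MV
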