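import Pool.Agent.W256.Curve6
import Pool.Agent.H297R2.BakerThm

/-!
# Growth of products of rational subspaces of `ℂ`, tested over the algebraic numbers
-/

set_option autoImplicit false

namespace Pool.Agent.U823.MV

open Module Submodule
open Pool.Agent.H301R2.SSE (QB mem_QB Lt Lt_one Lt_log)

instance isAlgClosed_QB : IsAlgClosed QB := (algebraicClosure.isAlgClosure ℚ ℂ).isAlgClosed

/-- the span over the algebraic numbers -/
noncomputable def ks (Z : Submodule ℚ ℂ) : Submodule QB ℂ := Submodule.span QB (Z : Set ℂ)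

theorem mem_ks {Z : Submodule ℚ ℂ} {x : ℂ} (hx : x ∈ Z) : x ∈ ks Z := Submodule.subset_span hx

theorem ks_fin (Z : Submodule ℚ ℂ) (hZ : FiniteDimensional ℚ Z) : FiniteDimensional QB (ks Z) := by
  obtain ⟨S, hS⟩ := (Module.Finite.iff_fg.mp hZ : Z.FG)
  have h1 : ks Z = Submodule.span QB (S : Set ℂ) := by
    apply le_antisymm
    · refine Submodule.span_le.mpr fun x hx => ?_
      rw [← hS] at hx
      exact Submodule.span_le_restrictScalars ℚ QB (S : Set ℂ) hx
    · refine Submodule.span_mono fun x hx => ?_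
      rw [← hS]
      exact Submodule.subset_span hx
  rw [h1]
  exact FiniteDimensional.span_finset QB S

theorem finrank_ks_le (Z : Submodule ℚ ℂ) (hZ : FiniteDimensional ℚ Z) :
    finrank QB (ks Z) ≤ finrank ℚ Z := by
  classical
  let b := finBasis ℚ Z
  let v : Fin (finrank ℚ Z) → ℂ := fun i => (b i : ℂ)
  have h1 : ks Z ≤ Submodule.span QB (Set.range v) := by
    refine Submodule.span_le.mpr fun x hx => ?_
    have h2 := b.sum_repr ⟨x, hx⟩
    have h3 : x = ∑ i, (b.repr ⟨x, hx⟩ i) • v i := by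
      have h5 := congrArg (Submodule.subtype Z) h2
      rw [map_sum] at h5
      exact h5.symm
    rw [h3]
    refine Submodule.sum_mem _ fun i _ => ?_
    have h4 : (b.repr ⟨x, hx⟩ i) • v i = (algebraMap ℚ QB (b.repr ⟨x, hx⟩ i)) • v i := by
      rw [algebraMap_smul]
    rw [h4]
    exact Submodule.smul_mem _ _ (Submodule.subset_span ⟨i, rfl⟩)
  have h2 : FiniteDimensional QB (Submodule.span QB (Set.range v)) :=
    FiniteDimensional.span_of_finite QB (Set.finite_range v)
  calc finrank QB (ks Z) ≤ finrank QB (Submodule.span QB (Set.range v)) := Submodule.finrank_mono h1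
    _ ≤ Fintype.card (Fin (finrank ℚ Z)) := finrank_range_le_card v
    _ = _ := Fintype.card_fin _

/-- Baker: rational spaces of logarithms keep their dimension -/
theorem finrank_ks_eq (Z : Submodule ℚ ℂ) (hZ : FiniteDimensional ℚ Z)
    (h : ∀ x ∈ Z, IsAlgebraic ℚ (Complex.exp x)) : finrank QB (ks Z) = finrank ℚ Z := by
  classical
  apply le_antisymm (finrank_ks_le Z hZ)
  have hf := ks_fin Z hZ
  let b := finBasis ℚ Z
  let v : Fin (finrank ℚ Z) → ℂ := fun i => (b i : ℂ)
  have hv : LinearIndependent ℚ v := b.linearIndependent.map' Z.subtype Z.ker_subtype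
  have hli : LinearIndependent QB v := by
    rw [Fintype.linearIndependent_iff]
    intro g hg
    have h1 := Pool.Agent.H297R2.baker v (fun i => h _ (b i).2) hv (fun i => (g i : ℂ))
      (fun i => mem_QB.1 (g i).2) hg
    intro i
    exact_mod_cast h1 i
  have hm : ∀ i, v i ∈ ks Z := fun i => mem_ks (b i).2
  have h2 : LinearIndependent QB (fun i => (⟨v i, hm i⟩ : ks Z)) :=
    LinearIndependent.of_comp (ks Z).subtype hli
  have h3 := h2.fintype_card_le_finrank
  rwa [Fintype.card_fin] at h3

theorem ks_le_Lt (Z : Submodule ℚ ℂ) (h : ∀ x ∈ Z, IsAlgebraic ℚ (Complex.exp x)) : ks Z ≤ Lt := by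
  refine Submodule.span_le.mpr fun x hx => ?_
  exact Submodule.subset_span (Or.inr (h x hx))

theorem ks_mul_le (Z T U : Submodule ℚ ℂ) (h : ∀ x ∈ Z, ∀ y ∈ T, x * y ∈ U) :
    ks Z * ks T ≤ ks U := by
  rw [ks, ks, Submodule.span_mul_span, Submodule.span_le]
  rintro _ ⟨x, hx, y, hy, rfl⟩
  exact mem_ks (h x hx y hy)

theorem ks_ne_bot (Z : Submodule ℚ ℂ) (h : Z ≠ ⊥) : ks Z ≠ ⊥ := by
  obtain ⟨x, hx, hx0⟩ := Submodule.exists_mem_ne_zero_of_ne_bot h
  exact fun h1 => hx0 ((Submodule.mem_bot QB).mp (h1 ▸ mem_ks hx))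

/-- growth by multiplication with logarithms (theorem of Roy) -/
theorem growth (X V : Submodule QB ℂ) [FiniteDimensional QB X] [FiniteDimensional QB V]
    (hV : V ≤ Lt) (hV0 : V ≠ ⊥) (hX : finrank QB V / 2 ≤ finrank QB X) :
    finrank QB X + finrank QB V ^ 2 / 4 ≤ finrank QB (X * V : Submodule QB ℂ) := by
  have key := Pool.Agent.W256.growth_of X V hV0 (finrank QB V / 2) hX (by
    intro Y hYX hYs
    have : FiniteDimensional QB Y := Submodule.finiteDimensional_of_le hYX
    have : FiniteDimensional QB (Y * V : Submodule QB ℂ) :=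
      Module.Finite.iff_fg.mpr (Submodule.FG.mul (Module.Finite.iff_fg.mp inferInstance)
        (Module.Finite.iff_fg.mp inferInstance))
    have h := Pool.Agent.W254.HP.product_le Y V (Y * V) hV
      (fun x hx w hw => Submodule.mul_mem_mul hx hw)
    rwa [hYs] at h)
  have h3 := Pool.Agent.W256.half_mul (finrank QB V)
  omega

/-- the same for rational spaces -/
theorem step (A Z U : Submodule ℚ ℂ) (hA : FiniteDimensional ℚ A) (hZ : FiniteDimensional ℚ Z)
    (hU : FiniteDimensional ℚ U) (hlog : ∀ x ∈ A, IsAlgebraic ℚ (Complex.exp x)) (hA0 : A ≠ ⊥)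
    (hX : finrank ℚ A / 2 ≤ finrank QB (ks Z)) (h : ∀ x ∈ Z, ∀ y ∈ A, x * y ∈ U) :
    finrank QB (ks Z) + finrank ℚ A ^ 2 / 4 ≤ finrank QB (ks U) := by
  have h1 := ks_fin A hA
  have h2 := ks_fin Z hZ
  have h3 := ks_fin U hU
  rw [← finrank_ks_eq A hA hlog] at hX ⊢
  exact (growth (ks Z) (ks A) (ks_le_Lt A hlog) (ks_ne_bot A hA0) hX).trans
    (Submodule.finrank_mono (ks_mul_le Z A U h))

/-- the linear Cauchy-Davenport inequality -/
theorem cauchy_davenport (X V : Submodule QB ℂ) [FiniteDimensional QB X] [FiniteDimensional QB V]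
    (hX : X ≠ ⊥) (hV : V ≠ ⊥) :
    finrank QB X + finrank QB V ≤ finrank QB (X * V : Submodule QB ℂ) + 1 := by
  have h1 : 1 ≤ finrank QB X := Submodule.one_le_finrank_iff.mpr hX
  have key := Pool.Agent.W256.growth_of X V hV 1 h1 (by
    intro Y hYX hYs
    obtain ⟨y, hy, hy0⟩ := Submodule.exists_mem_ne_zero_of_ne_bot (p := Y) (by
      rintro rfl
      rw [finrank_bot] at hYs
      omega)
    have : FiniteDimensional QB Y := Submodule.finiteDimensional_of_le hYX
    have : FiniteDimensional QB (Y * V : Submodule QB ℂ) :=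
      Module.Finite.iff_fg.mpr (Submodule.FG.mul (Module.Finite.iff_fg.mp inferInstance)
        (Module.Finite.iff_fg.mp inferInstance))
    let f : V →ₗ[QB] (Y * V : Submodule QB ℂ) :=
      { toFun := fun v => ⟨y * v, Submodule.mul_mem_mul hy v.2⟩
        map_add' := fun a b => Subtype.ext (by simp [mul_add])
        map_smul' := fun c a => Subtype.ext (by simp [mul_smul_comm]) }
    have hf : Function.Injective f := by
      intro a b hab
      have h2 : y * (a : ℂ) = y * b := congrArg Subtype.val hab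
      exact Subtype.ext (mul_left_cancel₀ hy0 h2)
    have := LinearMap.finrank_le_finrank_of_injective hf
    omega)
  omega

end Pool.Agent.U823.MV
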