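import Pool.Agent.U823.MV.Space
import Pool.Agent.U823.MV.Grow
import Pool.Agent.Helper51.Moser.LogSeries
import Pool.Agent.N770.Logs

/-!
# Weight one
-/

set_option autoImplicit false

namespace Pool.Agent.U823.MV

open Filter Topology Finset

theorem norm_root {N : ℕ} (hN : 1 ≤ N) {z : ℂ} (hz : z ^ N = 1) : ‖z‖ = 1 := by
  have h3 : ‖z‖ ^ N = 1 := by rw [← norm_pow, hz, norm_one]
  exact (pow_eq_one_iff_of_nonneg (norm_nonneg _) (by omega)).mp h3

theorem tendsto_one {z : ℂ} (hz : ‖z‖ = 1) (hz1 : z ≠ 1) :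
    Tendsto (tr [(1, z)]) atTop (𝓝 (-Complex.log (1 - z))) := by
  refine (Pool.Agent.Helper51.Moser.tendsto_log_series z hz hz1).congr fun m => ?_
  rw [tr_cons' (1, z) le_rfl]
  refine Finset.sum_congr rfl fun j _ => ?_
  rw [tr_nil, mul_one, pow_one]

theorem idx_single {N : ℕ} {z : ℂ} (hz : z ^ N = 1) (hz1 : z ≠ 1) : Idx N 1 [(1, z)] := by
  refine ⟨by simp, ?_, by simp, ?_⟩
  · intro x hx
    rw [List.mem_singleton] at hx
    subst hx
    exact ⟨le_rfl, hz⟩
  · intro x hx h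
    simp at hx
    rw [← hx] at h
    exact hz1 (congrArg Prod.snd h)

theorem log_mem {N : ℕ} (hN : 1 ≤ N) {z : ℂ} (hz : z ^ N = 1) (hz1 : z ≠ 1) :
    -Complex.log (1 - z) ∈ ZZ N 1 :=
  mem_ZZ (idx_single hz hz1) (tendsto_one (norm_root hN hz) hz1)

/-- induction principle for weight one -/
theorem one_induction {N : ℕ} (hN : 1 ≤ N) (P : ℂ → Prop) (h0 : P 0)
    (hadd : ∀ a b, P a → P b → P (a + b)) (hsmul : ∀ (q : ℚ) a, P a → P (q • a))
    (hgen : ∀ z : ℂ, z ^ N = 1 → z ≠ 1 → P (-Complex.log (1 - z))) (x : ℂ) (hx : x ∈ ZZ N 1) :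
    P x := by
  induction hx using Submodule.span_induction with
  | mem a ha =>
    obtain ⟨l, hl, ha⟩ := ha
    obtain ⟨z, rfl, hz, hz1⟩ := idx_one hl
    rw [tendsto_nhds_unique ha (tendsto_one (norm_root hN hz) hz1)]
    exact hgen z hz hz1
  | zero => exact h0
  | add a b _ _ ha hb => exact hadd a b ha hb
  | smul q a _ ha => exact hsmul q a ha

theorem isAlgebraic_root {N : ℕ} (hN : 1 ≤ N) {z : ℂ} (hz : z ^ N = 1) : IsAlgebraic ℚ z := by
  apply IsAlgebraic.of_pow (n := N) hN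
  rw [hz]
  exact isAlgebraic_one

theorem one_sub_ne {z : ℂ} (hz1 : z ≠ 1) : 1 - z ≠ 0 := sub_ne_zero.mpr (Ne.symm hz1)

theorem alg_exp {N : ℕ} (hN : 1 ≤ N) (x : ℂ) (hx : x ∈ ZZ N 1) : IsAlgebraic ℚ (Complex.exp x) := by
  refine one_induction hN (fun x => IsAlgebraic ℚ (Complex.exp x)) ?_ ?_ ?_ ?_ x hx
  · rw [Complex.exp_zero]; exact isAlgebraic_one
  · intro a b ha hb; rw [Complex.exp_add]; exact ha.mul hb
  · intro q a ha
    rw [Rat.smul_def]
    exact Pool.Agent.N770.exp_rat_mul ha q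
  · intro z hz hz1
    rw [Complex.exp_neg, Complex.exp_log (one_sub_ne hz1)]
    exact (isAlgebraic_one.sub (isAlgebraic_root hN hz)).inv

theorem conj_eq_inv {z : ℂ} (hz : ‖z‖ = 1) : (starRingEnd ℂ) z = z⁻¹ := by
  rw [Complex.inv_def, Complex.normSq_eq_norm_sq, hz]
  simp

theorem arg_ne_pi {z : ℂ} (hz : ‖z‖ = 1) (hz1 : z ≠ 1) : (1 - z).arg ≠ Real.pi := by
  have h1 : 1 - z ∈ Complex.slitPlane := by
    left
    have h2 : z.re ≤ 1 := by rw [← hz]; exact Complex.re_le_norm z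
    rcases h2.lt_or_eq with h3 | h3
    · simp; linarith
    · exfalso
      apply hz1
      have h4 : ‖z‖ ^ 2 = 1 := by rw [hz]; norm_num
      rw [← Complex.normSq_eq_norm_sq, Complex.normSq_apply, h3] at h4
      apply Complex.ext
      · simpa using h3
      · simp
        nlinarith
  exact (Complex.mem_slitPlane_iff_arg.mp h1).1

theorem conj_log {z : ℂ} (hz : ‖z‖ = 1) (hz1 : z ≠ 1) :
    (starRingEnd ℂ) (-Complex.log (1 - z)) = -Complex.log (1 - (starRingEnd ℂ) z) := by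
  rw [map_neg, ← Complex.log_conj _ (arg_ne_pi hz hz1), map_sub, map_one]

theorem conj_mem {N : ℕ} (hN : 1 ≤ N) (x : ℂ) (hx : x ∈ ZZ N 1) : (starRingEnd ℂ) x ∈ ZZ N 1 := by
  refine one_induction hN (fun x => (starRingEnd ℂ) x ∈ ZZ N 1) ?_ ?_ ?_ ?_ x hx
  · rw [map_zero]; exact zero_mem _
  · intro a b ha hb; rw [map_add]; exact add_mem ha hb
  · intro q a ha
    have : (starRingEnd ℂ) (q • a) = q • (starRingEnd ℂ) a := by
      rw [Rat.smul_def, Rat.smul_def, map_mul]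
      congr 1
      exact Complex.conj_ofReal q ▸ (by simp)
    rw [this]
    exact Submodule.smul_mem _ q ha
  · intro z hz hz1
    have hn := norm_root hN hz
    rw [conj_log hn hz1]
    refine log_mem hN ?_ ?_
    · rw [← map_pow, hz, map_one]
    · intro h
      apply hz1
      have := congrArg (starRingEnd ℂ) h
      rwa [Complex.conj_conj, map_one] at this

/-- the logarithm of the absolute value -/
theorem log_norm_mem {N : ℕ} (hN : 1 ≤ N) {z : ℂ} (hz : z ^ N = 1) (hz1 : z ≠ 1) :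
    ((Real.log ‖1 - z‖ : ℝ) : ℂ) ∈ ZZ N 1 := by
  have h1 := log_mem hN hz hz1
  have h2 := conj_mem hN _ h1
  have h3 : ((Real.log ‖1 - z‖ : ℝ) : ℂ) = (-(1 / 2) : ℚ) •
      (-Complex.log (1 - z) + (starRingEnd ℂ) (-Complex.log (1 - z))) := by
    rw [Complex.add_conj, Complex.neg_re, Complex.log_re, Rat.smul_def]
    push_cast
    ring
  rw [h3]
  exact Submodule.smul_mem _ _ (add_mem h1 h2)

/-- `i π` has weight one for `N ≥ 3` -/
theorem pi_mem {N : ℕ} (hN : 3 ≤ N) : (Real.pi : ℂ) * Complex.I ∈ ZZ N 1 := by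
  have hN1 : 1 ≤ N := by omega
  have hprim := Complex.isPrimitiveRoot_exp N (by omega)
  set z := Complex.exp (2 * Real.pi * Complex.I / N) with hz
  have hzN : z ^ N = 1 := hprim.pow_eq_one
  have hz1 : z ≠ 1 := hprim.ne_one (by omega)
  have hz2 : z ^ 2 ≠ 1 := hprim.pow_ne_one_of_pos_of_lt (by norm_num) (by omega)
  have hn := norm_root hN1 hzN
  have hz0 : z ≠ 0 := by
    intro h; rw [h, norm_zero] at hn; exact zero_ne_one hn
  set L := -Complex.log (1 - z) with hL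
  set D := L - (starRingEnd ℂ) L with hD
  have hmem : D ∈ ZZ N 1 := sub_mem (log_mem hN1 hzN hz1) (conj_mem hN1 _ (log_mem hN1 hzN hz1))
  have h1z : 1 - z ≠ 0 := one_sub_ne hz1
  have h1z' : 1 - z⁻¹ ≠ 0 := by
    apply one_sub_ne
    intro h
    exact hz1 (inv_eq_one.mp h)
  have hexp : Complex.exp D = -z⁻¹ := by
    rw [hD, Complex.exp_sub, Complex.exp_conj, hL, Complex.exp_neg, Complex.exp_log h1z, map_inv₀,
      map_sub, map_one, conj_eq_inv hn, inv_div_inv, div_eq_iff h1z]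
    field_simp
    ring
  have hpow : Complex.exp ((2 * N : ℕ) * D) = 1 := by
    rw [Complex.exp_nat_mul, hexp, pow_mul, neg_sq, ← pow_mul, mul_comm 2 N, pow_mul, inv_pow, hzN]
    simp
  obtain ⟨n, hn1⟩ := Complex.exp_eq_one_iff.mp hpow
  have hN0 : (N : ℂ) ≠ 0 := by exact_mod_cast (by omega : N ≠ 0)
  have hn0 : n ≠ 0 := by
    rintro rfl
    have hD0 : D = 0 := by
      have : ((2 * N : ℕ) : ℂ) ≠ 0 := by exact_mod_cast (by omega : 2 * N ≠ 0)
      have h5 : ((2 * N : ℕ) : ℂ) * D = 0 := by rw [hn1]; simp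
      exact (mul_eq_zero.mp h5).resolve_left this
    rw [hD0, Complex.exp_zero] at hexp
    apply hz2
    have h6 : z = -1 := by
      have h7 : z⁻¹ = -1 := by rw [eq_comm, neg_eq_iff_eq_neg] at hexp; exact hexp
      rw [← inv_inv z, h7]; norm_num
    rw [h6]; norm_num
  have hn0' : (n : ℂ) ≠ 0 := by exact_mod_cast hn0
  have hfin : (Real.pi : ℂ) * Complex.I = ((N : ℚ) / (n : ℚ)) • D := by
    rw [Rat.smul_def]
    push_cast
    push_cast at hn1
    have h8 : (N : ℂ) * D = n * (Real.pi * Complex.I) := by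
      have : (2 : ℂ) * ((N : ℂ) * D) = 2 * (n * (Real.pi * Complex.I)) := by
        linear_combination hn1
      exact mul_left_cancel₀ two_ne_zero this
    field_simp
    linear_combination -h8
  rw [hfin]
  exact Submodule.smul_mem _ _ hmem

/-- the real elements -/
noncomputable def RR (N w : ℕ) : Submodule ℚ ℂ where
  carrier := {x | x ∈ ZZ N w ∧ x.im = 0}
  add_mem' := fun ha hb => ⟨add_mem ha.1 hb.1, by rw [Complex.add_im, ha.2, hb.2, add_zero]⟩
  zero_mem' := ⟨zero_mem _, Complex.zero_im⟩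
  smul_mem' := fun q x hx => ⟨Submodule.smul_mem _ q hx.1, by
    rw [Rat.smul_def, Complex.mul_im, hx.2]
    simp⟩

/-- the imaginary elements -/
noncomputable def II (N w : ℕ) : Submodule ℚ ℂ where
  carrier := {x | x ∈ ZZ N w ∧ x.re = 0}
  add_mem' := fun ha hb => ⟨add_mem ha.1 hb.1, by rw [Complex.add_re, ha.2, hb.2, add_zero]⟩
  zero_mem' := ⟨zero_mem _, Complex.zero_re⟩
  smul_mem' := fun q x hx => ⟨Submodule.smul_mem _ q hx.1, by
    rw [Rat.smul_def, Complex.mul_re, hx.2]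
    simp⟩

theorem RR_le (N w : ℕ) : RR N w ≤ ZZ N w := fun _ hx => hx.1
theorem II_le (N w : ℕ) : II N w ≤ ZZ N w := fun _ hx => hx.1

open Module in
theorem finrank_RR_II (N w : ℕ) (hN : 1 ≤ N) :
    finrank ℚ (RR N w) + finrank ℚ (II N w) ≤ finrank ℚ (ZZ N w) := by
  have hf := ZZ_fin N w hN
  have h1 : FiniteDimensional ℚ (RR N w) := Submodule.finiteDimensional_of_le (RR_le N w)
  have h2 : FiniteDimensional ℚ (II N w) := Submodule.finiteDimensional_of_le (II_le N w)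
  have h3 := Submodule.finrank_sup_add_finrank_inf_eq (RR N w) (II N w)
  have h4 : RR N w ⊓ II N w = ⊥ := by
    rw [eq_bot_iff]
    rintro x ⟨⟨-, hx1⟩, ⟨-, hx2⟩⟩
    rw [Submodule.mem_bot]
    exact Complex.ext hx2 hx1
  rw [h4, finrank_bot, add_zero] at h3
  rw [← h3]
  exact Submodule.finrank_mono (sup_le (RR_le N w) (II_le N w))

end Pool.Agent.U823.MV
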