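import Pool.Agent.U823.MV.Trunc

/-!
# The spaces of cyclotomic multiple zeta values
-/

set_option autoImplicit false

namespace Pool.Agent.U823.MV

open Filter Topology Finset

/-- admissible lists of level `N` and weight `w` -/
def Idx (N w : ℕ) (l : List (ℕ × ℂ)) : Prop :=
  l ≠ [] ∧ (∀ x ∈ l, 1 ≤ x.1 ∧ x.2 ^ N = 1) ∧ (l.map Prod.fst).sum = w ∧
    ∀ x ∈ l.head?, x ≠ (1, 1)

/-- the space of cyclotomic multiple zeta values -/
noncomputable def ZZ (N w : ℕ) : Submodule ℚ ℂ :=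
  Submodule.span ℚ {v | ∃ l, Idx N w l ∧ Tendsto (tr l) atTop (𝓝 v)}

theorem Idx.good {N w : ℕ} (hN : 1 ≤ N) {l : List (ℕ × ℂ)} (h : Idx N w l) : Good l := by
  intro x hx
  obtain ⟨h1, h2⟩ := h.2.1 x hx
  refine ⟨h1, ?_⟩
  have h3 : ‖x.2‖ ^ N = 1 := by rw [← norm_pow, h2, norm_one]
  exact (pow_eq_one_iff_of_nonneg (norm_nonneg _) (by omega)).mp h3 |>.le

theorem Idx.conv {N w : ℕ} (hN : 1 ≤ N) {l : List (ℕ × ℂ)} (h : Idx N w l) :
    ∃ x, Tendsto (tr l) atTop (𝓝 x) :=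
  Pool.Agent.U823.MV.conv l (h.good hN) h.2.2.2

theorem letters_finite (N w : ℕ) (hN : 1 ≤ N) : {x : ℕ × ℂ | x.1 ≤ w ∧ x.2 ^ N = 1}.Finite := by
  have h1 : {z : ℂ | z ^ N = 1}.Finite := by
    have : {z : ℂ | z ^ N = 1} ⊆ ((Polynomial.nthRootsFinset N (1 : ℂ) : Finset ℂ) : Set ℂ) := by
      intro z hz
      rw [Finset.mem_coe, Polynomial.mem_nthRootsFinset (by omega)]
      exact hz
    exact (Finset.finite_toSet _).subset this
  exact ((Set.finite_Iic w).prod h1).subset (fun x hx => ⟨hx.1, hx.2⟩)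

theorem length_le {w : ℕ} {l : List (ℕ × ℂ)} (h : ∀ x ∈ l, 1 ≤ x.1)
    (hs : (l.map Prod.fst).sum = w) : l.length ≤ w := by
  subst hs
  induction l with
  | nil => simp
  | cons x l ih =>
    have h1 := h x (by simp)
    have h2 := ih (fun y hy => h y (List.mem_cons_of_mem _ hy))
    rw [List.length_cons, List.map_cons, List.sum_cons]
    omega

theorem fst_le {w : ℕ} {l : List (ℕ × ℂ)} (hs : (l.map Prod.fst).sum = w) : ∀ x ∈ l, x.1 ≤ w := by
  intro x hx
  rw [← hs]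
  exact List.le_sum_of_mem (List.mem_map.mpr ⟨x, hx, rfl⟩)

theorem idx_finite (N w : ℕ) (hN : 1 ≤ N) : {l | Idx N w l}.Finite := by
  have hf := letters_finite N w hN
  have : Finite {x : ℕ × ℂ | x.1 ≤ w ∧ x.2 ^ N = 1} := hf
  have h1 := List.finite_length_le {x : ℕ × ℂ | x.1 ≤ w ∧ x.2 ^ N = 1} w
  refine (h1.image (List.map Subtype.val)).subset ?_
  rintro l ⟨-, h2, h3, -⟩
  have h4 := length_le (fun x hx => (h2 x hx).1) h3
  have h5 := fst_le h3
  refine ⟨l.pmap (fun x hx => ⟨x, hx⟩) (fun x hx => ⟨h5 x hx, (h2 x hx).2⟩), ?_, ?_⟩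
  · change (List.pmap _ l _).length ≤ w
    rw [List.length_pmap]
    exact h4
  · rw [List.map_pmap, List.pmap_eq_self]
    intro a _
    rfl

theorem ZZ_fin (N w : ℕ) (hN : 1 ≤ N) : FiniteDimensional ℚ (ZZ N w) := by
  apply FiniteDimensional.span_of_finite
  refine ((idx_finite N w hN).image (fun l => limUnder atTop (tr l))).subset ?_
  rintro v ⟨l, hl, hv⟩
  exact ⟨l, hl, hv.limUnder_eq⟩

theorem mem_ZZ {N w : ℕ} {l : List (ℕ × ℂ)} {v : ℂ} (hl : Idx N w l)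
    (hv : Tendsto (tr l) atTop (𝓝 v)) : v ∈ ZZ N w := Submodule.subset_span ⟨l, hl, hv⟩

/-- multiplication by the value of one letter -/
theorem letter_mul {N w : ℕ} (hN : 1 ≤ N) (x : ℕ × ℂ) (hx1 : 1 ≤ x.1) (hx2 : x.2 ^ N = 1)
    (hx0 : x ≠ (1, 1)) (L : ℂ) (hL : Tendsto (tr [x]) atTop (𝓝 L)) (v : ℂ) (hv : v ∈ ZZ N w) :
    L * v ∈ ZZ N (w + x.1) := by
  induction hv using Submodule.span_induction with
  | mem v hv =>
    obtain ⟨l, hl, hv⟩ := hv
    have h1 : ∀ l' ∈ st x l, Idx N (w + x.1) l' := by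
      intro l' hl'
      obtain ⟨a1, a2, a3, a4⟩ := st_mem x l l' hl'
      refine ⟨a2, a3 (fun y => 1 ≤ y.1 ∧ y.2 ^ N = 1) ⟨hx1, hx2⟩ hl.2.1 ?_, ?_, ?_⟩
      · intro y hy
        obtain ⟨b1, b2⟩ := hl.2.1 y hy
        refine ⟨?_, ?_⟩
        · simp only [mg]; omega
        · simp only [mg]; rw [mul_pow, hx2, b2, one_mul]
      · rw [a1, hl.2.2.1, add_comm]
      · refine a4 (fun y => y ≠ (1, 1)) hx0 hl.2.2.2 ?_
        intro y hy h
        obtain ⟨b1, b2⟩ := hl.2.1 y hy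
        have := congrArg Prod.fst h
        simp only [mg] at this
        omega
    have h2 : ∀ (S : List (List (ℕ × ℂ))), (∀ l' ∈ S, Idx N (w + x.1) l') →
        ∃ s ∈ ZZ N (w + x.1), Tendsto (fun m => (S.map fun l' => tr l' m).sum) atTop (𝓝 s) := by
      intro S
      induction S with
      | nil => intro _; exact ⟨0, zero_mem _, by simp⟩
      | cons a S ih =>
        intro hS
        obtain ⟨s, hs, hs'⟩ := ih (fun l' hl' => hS l' (List.mem_cons_of_mem _ hl'))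
        have ha := hS a (by simp)
        obtain ⟨t, ht⟩ := ha.conv hN
        refine ⟨t + s, add_mem (mem_ZZ ha ht) hs, ?_⟩
        simp only [List.map_cons, List.sum_cons]
        exact ht.add hs'
    obtain ⟨s, hs, hs'⟩ := h2 _ h1
    have h3 : Tendsto (fun m => tr [x] m * tr l m) atTop (𝓝 (L * v)) := hL.mul hv
    have h4 : L * v = s := tendsto_nhds_unique h3 (hs'.congr fun m => (st_mul x l m).symm)
    rw [h4]
    exact hs
  | zero => rw [mul_zero]; exact zero_mem _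
  | add a b _ _ ha hb => rw [mul_add]; exact add_mem ha hb
  | smul q a _ ha => rw [mul_smul_comm]; exact Submodule.smul_mem _ q ha

/-- the admissible lists of weight one -/
theorem idx_one {N : ℕ} {l : List (ℕ × ℂ)} (h : Idx N 1 l) : ∃ z : ℂ, l = [(1, z)] ∧ z ^ N = 1 ∧ z ≠ 1 := by
  obtain ⟨h1, h2, h3, h4⟩ := h
  have h5 := length_le (fun x hx => (h2 x hx).1) h3
  obtain ⟨x, rfl⟩ : ∃ x, l = [x] := by
    rcases l with _ | ⟨x, _ | ⟨y, l⟩⟩
    · exact absurd rfl h1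
    · exact ⟨x, rfl⟩
    · simp at h5
  have h6 : x.1 = 1 := by simpa using h3
  refine ⟨x.2, by rw [← h6], (h2 x (by simp)).2, ?_⟩
  intro h7
  exact h4 x (by simp) (Prod.ext h6 h7)

theorem one_mul_mem {N w : ℕ} (hN : 1 ≤ N) (a v : ℂ) (ha : a ∈ ZZ N 1) (hv : v ∈ ZZ N w) :
    v * a ∈ ZZ N (w + 1) := by
  induction ha using Submodule.span_induction with
  | mem a ha =>
    obtain ⟨l, hl, ha⟩ := ha
    obtain ⟨z, rfl, hz, hz1⟩ := idx_one hl
    rw [mul_comm]
    exact letter_mul hN (1, z) le_rfl hz (fun h => hz1 (congrArg Prod.snd h)) a ha v hv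
  | zero => rw [mul_zero]; exact zero_mem _
  | add a b _ _ ha hb => rw [mul_add]; exact add_mem ha hb
  | smul q a _ ha => rw [mul_smul_comm]; exact Submodule.smul_mem _ q ha

end Pool.Agent.U823.MV
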