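import Mathlib

/-!
# Truncated multiple polylogarithms: the stuffle product with one letter and convergence
-/

set_option autoImplicit false

namespace Pool.Agent.U823.MV

open Filter Topology Finset

/-- truncated multiple polylogarithm -/
noncomputable def tr : List (ℕ × ℂ) → ℕ → ℂ
  | [], _ => 1
  | x :: l, m => ∑ j ∈ Finset.Ico 1 m, x.2 ^ j / (j : ℂ) ^ x.1 * tr l j

theorem tr_nil (m : ℕ) : tr [] m = 1 := rfl

theorem tr_cons (x : ℕ × ℂ) (l : List (ℕ × ℂ)) (m : ℕ) :
    tr (x :: l) m = ∑ j ∈ Finset.Ico 1 m, x.2 ^ j / (j : ℂ) ^ x.1 * tr l j := rfl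

theorem tr_cons_one (x : ℕ × ℂ) (l : List (ℕ × ℂ)) : tr (x :: l) 1 = 0 := by
  rw [tr_cons]; simp

theorem tr_cons_zero (x : ℕ × ℂ) (l : List (ℕ × ℂ)) : tr (x :: l) 0 = 0 := by
  rw [tr_cons]; simp

theorem tr_cons_succ (x : ℕ × ℂ) (l : List (ℕ × ℂ)) (m : ℕ) (hm : 1 ≤ m) :
    tr (x :: l) (m + 1) = tr (x :: l) m + x.2 ^ m / (m : ℂ) ^ x.1 * tr l m := by
  rw [tr_cons, tr_cons, Finset.sum_Ico_succ_top hm]

/-- merging two letters -/
def mg (x y : ℕ × ℂ) : ℕ × ℂ := (x.1 + y.1, x.2 * y.2)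

/-- the terms of the stuffle product of a letter with a list -/
def st (x : ℕ × ℂ) : List (ℕ × ℂ) → List (List (ℕ × ℂ))
  | [] => [[x]]
  | y :: l => (x :: y :: l) :: (mg x y :: l) :: (st x l).map (y :: ·)

theorem st_mul (x : ℕ × ℂ) (l : List (ℕ × ℂ)) (m : ℕ) :
    tr [x] m * tr l m = ((st x l).map fun l' => tr l' m).sum := by
  induction l generalizing m with
  | nil => simp [st, tr_nil]
  | cons y l ih =>
    have h0 : ∀ m, ((st x (y :: l)).map fun l' => tr l' m).sum =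
        tr (x :: y :: l) m + (tr (mg x y :: l) m + ((st x l).map fun l' => tr (y :: l') m).sum) := by
      intro m
      rw [st, List.map_cons, List.sum_cons, List.map_cons, List.sum_cons, List.map_map]
      rfl
    rw [h0]
    have hsum : ∀ (L : List (List (ℕ × ℂ))) (m : ℕ), 1 ≤ m →
        (L.map fun l' => tr (y :: l') (m + 1)).sum = (L.map fun l' => tr (y :: l') m).sum +
          y.2 ^ m / (m : ℂ) ^ y.1 * (L.map fun l' => tr l' m).sum := by
      intro L m hm
      induction L with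
      | nil => simp
      | cons a L ihL =>
        rw [List.map_cons, List.sum_cons, List.map_cons, List.sum_cons, List.map_cons,
          List.sum_cons, ihL, tr_cons_succ y a m hm]
        ring
    have hz1 : ∀ (L : List (List (ℕ × ℂ))), (L.map fun l' => tr (y :: l') 1).sum = 0 := by
      intro L
      induction L with
      | nil => simp
      | cons a L ihL => rw [List.map_cons, List.sum_cons, ihL, tr_cons_one, add_zero]
    have hz0 : ∀ (L : List (List (ℕ × ℂ))), (L.map fun l' => tr (y :: l') 0).sum = 0 := by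
      intro L
      induction L with
      | nil => simp
      | cons a L ihL => rw [List.map_cons, List.sum_cons, ihL, tr_cons_zero, add_zero]
    rcases Nat.eq_zero_or_pos m with rfl | hm
    · rw [tr_cons_zero, tr_cons_zero, tr_cons_zero, tr_cons_zero, hz0]; ring
    induction m, hm using Nat.le_induction with
    | base => rw [tr_cons_one, tr_cons_one, tr_cons_one, tr_cons_one, hz1]; ring
    | succ m hm ihm =>
      have hm' : 1 ≤ m := hm
      rw [tr_cons_succ x [] m hm', tr_cons_succ y l m hm', tr_cons_succ x (y :: l) m hm',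
        tr_cons_succ (mg x y) l m hm', hsum _ m hm', ← ih m, tr_nil]
      have h1 : (mg x y).2 ^ m / (m : ℂ) ^ (mg x y).1 =
          (x.2 ^ m / (m : ℂ) ^ x.1) * (y.2 ^ m / (m : ℂ) ^ y.1) := by
        simp only [mg]
        rw [mul_pow, pow_add, mul_div_mul_comm]
      rw [h1]
      linear_combination ihm

/-- `P` holds for all terms of the stuffle product -/
theorem st_mem (x : ℕ × ℂ) (l l' : List (ℕ × ℂ)) (h : l' ∈ st x l) :
    (l'.map Prod.fst).sum = x.1 + (l.map Prod.fst).sum ∧ l' ≠ [] ∧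
      (∀ P : ℕ × ℂ → Prop, P x → (∀ y ∈ l, P y) → (∀ y ∈ l, P (mg x y)) → ∀ y ∈ l', P y) ∧
      (∀ P : ℕ × ℂ → Prop, P x → (∀ y ∈ l.head?, P y) → (∀ y ∈ l, P (mg x y)) →
        ∀ y ∈ l'.head?, P y) := by
  induction l generalizing l' with
  | nil =>
    rw [st, List.mem_singleton] at h
    subst h
    simp
  | cons y l ih =>
    rw [st, List.mem_cons, List.mem_cons, List.mem_map] at h
    rcases h with rfl | rfl | ⟨k, hk, rfl⟩
    · refine ⟨by simp, by simp, ?_, ?_⟩
      · intro P hx hl _ z hz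
        rcases List.mem_cons.mp hz with rfl | hz
        · exact hx
        · exact hl z hz
      · intro P hx _ _ z hz
        simp at hz
        subst hz
        exact hx
    · refine ⟨by simp [mg]; ring, by simp, ?_, ?_⟩
      · intro P hx hl hm z hz
        rcases List.mem_cons.mp hz with rfl | hz
        · exact hm y (by simp)
        · exact hl z (List.mem_cons_of_mem _ hz)
      · intro P hx _ hm z hz
        simp at hz
        subst hz
        exact hm y (by simp)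
    · obtain ⟨h1, h2, h3, h4⟩ := ih k hk
      refine ⟨by simp [h1]; ring, by simp, ?_, ?_⟩
      · intro P hx hl hm z hz
        rcases List.mem_cons.mp hz with rfl | hz
        · exact hl z (by simp)
        · exact h3 P hx (fun a ha => hl a (List.mem_cons_of_mem _ ha))
            (fun a ha => hm a (List.mem_cons_of_mem _ ha)) z hz
      · intro P _ hy _ z hz
        exact hy z (by simpa using hz)

/-! ### convergence -/

/-- all letters have a positive exponent and absolute value at most one -/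
def Good (l : List (ℕ × ℂ)) : Prop := ∀ x ∈ l, 1 ≤ x.1 ∧ ‖x.2‖ ≤ 1

theorem term_norm_le (x : ℕ × ℂ) (hx : ‖x.2‖ ≤ 1) (j : ℕ) (hj : 1 ≤ j) (a : ℕ) (ha : a ≤ x.1) :
    ‖x.2 ^ j / (j : ℂ) ^ x.1‖ ≤ 1 / (j : ℝ) ^ a := by
  rw [norm_div, norm_pow, norm_pow, Complex.norm_natCast]
  have hj' : (1 : ℝ) ≤ j := by exact_mod_cast hj
  have h1 : ‖x.2‖ ^ j ≤ 1 := pow_le_one₀ (norm_nonneg _) hx
  have h2 : (j : ℝ) ^ a ≤ (j : ℝ) ^ x.1 := pow_le_pow_right₀ hj' ha
  have h3 : (0 : ℝ) < (j : ℝ) ^ a := by positivity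
  exact div_le_div₀ zero_le_one h1 h3 h2

theorem norm_tr_le (l : List (ℕ × ℂ)) (hl : Good l) (m : ℕ) (hm : 1 ≤ m) :
    ‖tr l m‖ ≤ (1 + Real.log m) ^ l.length := by
  induction l generalizing m with
  | nil => simp [tr_nil]
  | cons x l ih =>
    have hl' : Good l := fun y hy => hl y (List.mem_cons_of_mem _ hy)
    obtain ⟨hx1, hx2⟩ := hl x (by simp)
    have hm' : (1 : ℝ) ≤ m := by exact_mod_cast hm
    have hlog : 0 ≤ Real.log m := Real.log_nonneg hm'
    rw [tr_cons]
    calc ‖∑ j ∈ Finset.Ico 1 m, x.2 ^ j / (j : ℂ) ^ x.1 * tr l j‖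
        ≤ ∑ j ∈ Finset.Ico 1 m, ‖x.2 ^ j / (j : ℂ) ^ x.1 * tr l j‖ := norm_sum_le _ _
      _ ≤ ∑ j ∈ Finset.Ico 1 m, (j : ℝ)⁻¹ * (1 + Real.log m) ^ l.length := by
          refine Finset.sum_le_sum fun j hj => ?_
          obtain ⟨h1, h2⟩ := Finset.mem_Ico.mp hj
          rw [norm_mul]
          have h3 := term_norm_le x hx2 j h1 1 hx1
          rw [pow_one, one_div] at h3
          have h4 : ‖tr l j‖ ≤ (1 + Real.log m) ^ l.length := by
            refine (ih hl' j h1).trans ?_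
            have h5 : Real.log j ≤ Real.log m := Real.log_le_log (by exact_mod_cast h1)
              (by exact_mod_cast h2.le)
            have h6 : 0 ≤ Real.log j := Real.log_natCast_nonneg j
            gcongr
          exact mul_le_mul h3 h4 (norm_nonneg _) (by positivity)
      _ = (∑ j ∈ Finset.Ico 1 m, (j : ℝ)⁻¹) * (1 + Real.log m) ^ l.length := by
          rw [Finset.sum_mul]
      _ ≤ (1 + Real.log m) * (1 + Real.log m) ^ l.length := by
          refine mul_le_mul_of_nonneg_right ?_ (by positivity)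
          have h7 : ∑ j ∈ Finset.Ico 1 m, (j : ℝ)⁻¹ ≤ ∑ j ∈ Finset.Icc 1 m, (j : ℝ)⁻¹ := by
            refine Finset.sum_le_sum_of_subset_of_nonneg ?_ (fun _ _ _ => by positivity)
            exact Finset.Ico_subset_Icc_self
          have h8 := harmonic_le_one_add_log m
          rw [harmonic_eq_sum_Icc] at h8
          push_cast at h8
          exact h7.trans h8
      _ = (1 + Real.log m) ^ (x :: l).length := by
          rw [List.length_cons, pow_succ]; ring

theorem log_pow_le (n : ℕ) : ∃ C : ℝ, 0 ≤ C ∧ ∀ m : ℕ, 1 ≤ m →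
    (1 + Real.log (m + 1)) ^ n ≤ C * (m : ℝ) ^ (1 / 2 : ℝ) := by
  have h1 : (fun x : ℝ => (1 + Real.log x) ^ n) =O[atTop] fun x => x ^ (1 / 2 : ℝ) := by
    rcases Nat.eq_zero_or_pos n with rfl | hn
    · simp only [pow_zero]
      have : Tendsto (fun x : ℝ => x ^ (1 / 2 : ℝ)) atTop atTop := tendsto_rpow_atTop (by norm_num)
      exact (Asymptotics.isLittleO_one_left_iff ℝ |>.mpr (tendsto_norm_atTop_atTop.comp this)).isBigO
    · have h2 : (fun x : ℝ => Real.log x ^ n) =o[atTop] fun x => x ^ (1 / 2 : ℝ) := by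
        have := isLittleO_log_rpow_atTop (r := 1 / (2 * n)) (by positivity)
        have h3 := this.pow hn
        refine h3.trans_isBigO (Asymptotics.IsBigO.of_bound 1 ?_)
        filter_upwards [eventually_ge_atTop (0 : ℝ)] with x hx
        rw [← Real.rpow_natCast, ← Real.rpow_mul hx, one_mul]
        have : (1 / (2 * (n : ℝ))) * (n : ℝ) = 1 / 2 := by field_simp
        rw [this]
      have h4 : (fun x : ℝ => 1 + Real.log x) =O[atTop] fun x => Real.log x := by
        refine Asymptotics.IsBigO.of_bound 2 ?_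
        filter_upwards [eventually_ge_atTop (Real.exp 1)] with x hx
        have : 1 ≤ Real.log x := by
          rw [Real.le_log_iff_exp_le (lt_of_lt_of_le (Real.exp_pos 1) hx)]
          exact hx
        rw [Real.norm_of_nonneg (by linarith), Real.norm_of_nonneg (by linarith)]
        linarith
      exact (h4.pow n).trans h2.isBigO
  obtain ⟨C, hC, h2⟩ := h1.exists_pos
  rw [Asymptotics.IsBigOWith_def] at h2
  have h3 : ∀ᶠ m : ℕ in atTop, ‖(1 + Real.log ((m : ℝ) + 1)) ^ n‖ ≤ C * ‖((m : ℝ) + 1) ^ (1 / 2 : ℝ)‖ := by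
    have : Tendsto (fun m : ℕ => (m : ℝ) + 1) atTop atTop :=
      tendsto_atTop_add_const_right _ _ tendsto_natCast_atTop_atTop
    exact this.eventually h2
  obtain ⟨M, hM⟩ := eventually_atTop.mp h3
  -- finitely many exceptions
  obtain ⟨B, hB⟩ : ∃ B : ℝ, ∀ m < M, (1 + Real.log ((m : ℝ) + 1)) ^ n ≤ B := by
    refine ⟨∑ m ∈ Finset.range M, |(1 + Real.log ((m : ℝ) + 1)) ^ n|, fun m hm => ?_⟩
    exact (le_abs_self _).trans (Finset.single_le_sum
      (f := fun m : ℕ => |(1 + Real.log ((m : ℝ) + 1)) ^ n|) (fun _ _ => abs_nonneg _)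
      (Finset.mem_range.mpr hm))
  refine ⟨max B 0 + 2 * C, by positivity, fun m hm => ?_⟩
  have hm' : (1 : ℝ) ≤ m := by exact_mod_cast hm
  have h5 : (1 : ℝ) ≤ (m : ℝ) ^ (1 / 2 : ℝ) := Real.one_le_rpow hm' (by norm_num)
  rcases lt_or_ge m M with hlt | hge
  · calc (1 + Real.log ((m : ℝ) + 1)) ^ n ≤ max B 0 := (hB m hlt).trans (le_max_left _ _)
      _ ≤ (max B 0 + 2 * C) * 1 := by linarith
      _ ≤ _ := by gcongr
  · have h6 := hM m hge
    rw [Real.norm_of_nonneg (r := ((m : ℝ) + 1) ^ (1 / 2 : ℝ)) (by positivity)] at h6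
    have h7 : ((m : ℝ) + 1) ^ (1 / 2 : ℝ) ≤ 2 * (m : ℝ) ^ (1 / 2 : ℝ) := by
      calc ((m : ℝ) + 1) ^ (1 / 2 : ℝ) ≤ (4 * (m : ℝ)) ^ (1 / 2 : ℝ) :=
            Real.rpow_le_rpow (by positivity) (by linarith) (by norm_num)
        _ = 2 * (m : ℝ) ^ (1 / 2 : ℝ) := by
            rw [Real.mul_rpow (by norm_num) (by positivity)]
            congr 1
            rw [show (4 : ℝ) = 2 ^ (2 : ℝ) by norm_num, ← Real.rpow_mul (by norm_num)]
            norm_num
    calc (1 + Real.log ((m : ℝ) + 1)) ^ n ≤ C * ((m : ℝ) + 1) ^ (1 / 2 : ℝ) :=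
          (le_abs_self _).trans h6
      _ ≤ C * (2 * (m : ℝ) ^ (1 / 2 : ℝ)) := by gcongr
      _ ≤ (max B 0 + 2 * C) * (m : ℝ) ^ (1 / 2 : ℝ) := by
          have : 0 ≤ max B 0 * (m : ℝ) ^ (1 / 2 : ℝ) := by positivity
          nlinarith

theorem tr_cons' (x : ℕ × ℂ) (hx : 1 ≤ x.1) (l : List (ℕ × ℂ)) (m : ℕ) :
    tr (x :: l) m = ∑ j ∈ Finset.range m, x.2 ^ j / (j : ℂ) ^ x.1 * tr l j := by
  rw [tr_cons]
  rcases Nat.eq_zero_or_pos m with rfl | hm
  · simp
  rw [Finset.range_eq_Ico, Finset.sum_eq_sum_Ico_succ_bot hm]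
  rw [Nat.cast_zero, zero_pow (by omega), div_zero, zero_mul, zero_add]

theorem norm_tr_le' (l : List (ℕ × ℂ)) (hl : Good l) : ∃ C : ℝ, 0 ≤ C ∧ ∀ m : ℕ, 1 ≤ m →
    ‖tr l m‖ ≤ C * (m : ℝ) ^ (1 / 2 : ℝ) := by
  obtain ⟨C, hC, h⟩ := log_pow_le l.length
  refine ⟨C, hC, fun m hm => (norm_tr_le l hl m hm).trans ((?_ : _ ≤ _).trans (h m hm))⟩
  have h1 : Real.log m ≤ Real.log (m + 1) :=
    Real.log_le_log (by exact_mod_cast hm) (by linarith)
  have h2 : 0 ≤ Real.log m := Real.log_natCast_nonneg m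
  gcongr

theorem norm_tr_diff (l : List (ℕ × ℂ)) (hl : Good l) : ∃ C : ℝ, 0 ≤ C ∧ ∀ m : ℕ, 1 ≤ m →
    ‖tr l (m + 1) - tr l m‖ ≤ C * (m : ℝ) ^ (-(1 / 2) : ℝ) := by
  cases l with
  | nil => exact ⟨0, le_rfl, fun m _ => by simp [tr_nil]⟩
  | cons y l =>
    obtain ⟨C, hC, h⟩ := norm_tr_le' l (fun z hz => hl z (List.mem_cons_of_mem _ hz))
    refine ⟨C, hC, fun m hm => ?_⟩
    have hm' : (0 : ℝ) < m := by exact_mod_cast hm
    obtain ⟨hy1, hy2⟩ := hl y (by simp)
    rw [tr_cons_succ y l m hm, add_sub_cancel_left, norm_mul]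
    have h1 := term_norm_le y hy2 m hm 1 hy1
    rw [pow_one] at h1
    calc ‖y.2 ^ m / (m : ℂ) ^ y.1‖ * ‖tr l m‖ ≤ 1 / (m : ℝ) * (C * (m : ℝ) ^ (1 / 2 : ℝ)) :=
          mul_le_mul h1 (h m hm) (norm_nonneg _) (by positivity)
      _ = C * ((m : ℝ) ^ (-1 : ℝ) * (m : ℝ) ^ (1 / 2 : ℝ)) := by
          rw [Real.rpow_neg_one]; ring
      _ = _ := by
          rw [← Real.rpow_add hm']; norm_num

theorem summable_of_bound (f : ℕ → ℂ) (C : ℝ) (h : ∀ m : ℕ, 1 ≤ m →
    ‖f m‖ ≤ C * (m : ℝ) ^ (-(3 / 2) : ℝ)) : Summable f := by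
  rw [← summable_nat_add_iff 1]
  refine Summable.of_norm_bounded (g := fun m : ℕ => C * ((m + 1 : ℕ) : ℝ) ^ (-(3 / 2) : ℝ)) ?_ ?_
  · apply Summable.mul_left
    have h1 : Summable (fun m : ℕ => (m : ℝ) ^ (-(3 / 2) : ℝ)) :=
      Real.summable_nat_rpow.mpr (by norm_num)
    exact (summable_nat_add_iff 1).mpr h1
  · intro m
    exact h (m + 1) (Nat.le_add_left 1 m)

theorem geom_bound (z : ℂ) (hz : ‖z‖ ≤ 1) (hz1 : z ≠ 1) (n : ℕ) :
    ‖∑ i ∈ Finset.range n, z ^ i‖ ≤ 2 / ‖z - 1‖ := by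
  rw [geom_sum_eq hz1, norm_div]
  have h0 : 0 < ‖z - 1‖ := norm_pos_iff.mpr (sub_ne_zero.mpr hz1)
  have h1 : ‖z ^ n - 1‖ ≤ 2 := by
    calc ‖z ^ n - 1‖ ≤ ‖z ^ n‖ + ‖(1 : ℂ)‖ := norm_sub_le _ _
      _ ≤ 1 + 1 := by
          rw [norm_pow, norm_one]
          exact add_le_add (pow_le_one₀ (norm_nonneg _) hz) le_rfl
      _ = 2 := by norm_num
  gcongr

/-- convergence -/
theorem conv (l : List (ℕ × ℂ)) (hl : Good l) (h0 : ∀ y ∈ l.head?, y ≠ (1, 1)) :
    ∃ x, Tendsto (tr l) atTop (𝓝 x) := by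
  cases l with
  | nil => exact ⟨1, by simp only [tr]; exact tendsto_const_nhds⟩
  | cons x l =>
    have hl' : Good l := fun z hz => hl z (List.mem_cons_of_mem _ hz)
    obtain ⟨hx1, hx2⟩ := hl x (by simp)
    have hx0 : x ≠ (1, 1) := h0 x (by simp)
    obtain ⟨C, hC, h⟩ := norm_tr_le' l hl'
    obtain ⟨C', hC', h'⟩ := norm_tr_diff l hl'
    rcases Nat.lt_or_ge x.1 2 with ha | ha
    · have ha1 : x.1 = 1 := by omega
      have hz1 : x.2 ≠ 1 := fun h => hx0 (Prod.ext ha1 h)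
      set B : ℕ → ℂ := fun j => tr l j / (j : ℂ) with hB
      have h1 : tr (x :: l) = fun m => ∑ j ∈ Finset.range m, B j • x.2 ^ j := by
        funext m
        rw [tr_cons' x hx1]
        refine Finset.sum_congr rfl fun j _ => ?_
        rw [ha1, pow_one, hB, smul_eq_mul]
        ring
      have h2 : ∀ m : ℕ, ∑ j ∈ Finset.range m, B j • x.2 ^ j =
          B (m - 1) • ∑ i ∈ Finset.range m, x.2 ^ i -
            ∑ i ∈ Finset.range (m - 1), (B (i + 1) - B i) • ∑ j ∈ Finset.range (i + 1), x.2 ^ j :=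
        fun m => Finset.sum_range_by_parts B (fun i => x.2 ^ i) m
      set K := 2 / ‖x.2 - 1‖ with hK
      have hK0 : 0 ≤ K := by positivity
      have hs : Summable fun i => (B (i + 1) - B i) • ∑ j ∈ Finset.range (i + 1), x.2 ^ j := by
        refine summable_of_bound _ ((C' + C) * K) fun i hi => ?_
        have hi' : (0 : ℝ) < i := by exact_mod_cast hi
        have hi0 : (i : ℂ) ≠ 0 := by exact_mod_cast hi'.ne'
        have hi1 : ((i + 1 : ℕ) : ℂ) ≠ 0 := by exact_mod_cast Nat.succ_ne_zero i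
        rw [norm_smul]
        have e1 : B (i + 1) - B i = (tr l (i + 1) - tr l i) / ((i + 1 : ℕ) : ℂ) -
            tr l i / ((i : ℂ) * ((i + 1 : ℕ) : ℂ)) := by
          rw [hB]
          field_simp
          push_cast
          ring
        have e2 : ‖(tr l (i + 1) - tr l i) / ((i + 1 : ℕ) : ℂ)‖ ≤ C' * (i : ℝ) ^ (-(3 / 2) : ℝ) := by
          rw [norm_div, Complex.norm_natCast]
          have e3 : (i : ℝ) ^ (-(3 / 2) : ℝ) = (i : ℝ) ^ (-(1 / 2) : ℝ) / (i : ℝ) := by
            rw [← Real.rpow_sub_one hi'.ne']; norm_num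
          rw [e3, ← mul_div_assoc]
          refine div_le_div₀ (by positivity) (h' i hi) hi' ?_
          push_cast; linarith
        have e4 : ‖tr l i / ((i : ℂ) * ((i + 1 : ℕ) : ℂ))‖ ≤ C * (i : ℝ) ^ (-(3 / 2) : ℝ) := by
          rw [norm_div, norm_mul, Complex.norm_natCast, Complex.norm_natCast]
          have e3 : (i : ℝ) ^ (-(3 / 2) : ℝ) = (i : ℝ) ^ (1 / 2 : ℝ) / ((i : ℝ) * (i : ℝ)) := by
            rw [← div_div, ← Real.rpow_sub_one hi'.ne', ← Real.rpow_sub_one hi'.ne']; norm_num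
          rw [e3, ← mul_div_assoc]
          refine div_le_div₀ (by positivity) (h i hi) (by positivity) ?_
          push_cast
          nlinarith
        calc ‖B (i + 1) - B i‖ * ‖∑ j ∈ Finset.range (i + 1), x.2 ^ j‖
            ≤ (C' * (i : ℝ) ^ (-(3 / 2) : ℝ) + C * (i : ℝ) ^ (-(3 / 2) : ℝ)) * K := by
              refine mul_le_mul ?_ (geom_bound x.2 hx2 hz1 _) (norm_nonneg _) (by positivity)
              rw [e1]
              exact (norm_sub_le _ _).trans (add_le_add e2 e4)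
          _ = _ := by ring
      have hlim1 : Tendsto (fun m : ℕ => B (m - 1) • ∑ i ∈ Finset.range m, x.2 ^ i) atTop (𝓝 0) := by
        have hb : Tendsto (fun m : ℕ => C * ((m : ℝ) ^ (-(1 / 2) : ℝ)) * K) atTop (𝓝 0) := by
          have h3 : Tendsto (fun m : ℕ => (m : ℝ) ^ (-(1 / 2) : ℝ)) atTop (𝓝 0) :=
            (tendsto_rpow_neg_atTop (by norm_num : (0 : ℝ) < 1 / 2)).comp tendsto_natCast_atTop_atTop
          have := (h3.const_mul C).mul_const K
          simpa using this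
        have hb' := (tendsto_sub_atTop_nat 1)
        have hb2 := hb.comp hb'
        refine squeeze_zero_norm' ?_ hb2
        filter_upwards [eventually_ge_atTop 2] with m hm
        have hm1 : 1 ≤ m - 1 := by omega
        have hm' : (0 : ℝ) < ((m - 1 : ℕ) : ℝ) := by exact_mod_cast hm1
        rw [norm_smul]
        refine mul_le_mul ?_ (geom_bound x.2 hx2 hz1 _) (norm_nonneg _) (by positivity)
        rw [hB]
        simp only
        rw [norm_div, Complex.norm_natCast]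
        have e3 : ((m - 1 : ℕ) : ℝ) ^ (-(1 / 2) : ℝ) =
            ((m - 1 : ℕ) : ℝ) ^ (1 / 2 : ℝ) / ((m - 1 : ℕ) : ℝ) := by
          rw [← Real.rpow_sub_one hm'.ne']; norm_num
        rw [e3, ← mul_div_assoc]
        exact div_le_div_of_nonneg_right (h _ hm1) hm'.le
      obtain ⟨S, hS⟩ := hs
      have hlim2 := hS.tendsto_sum_nat.comp (tendsto_sub_atTop_nat 1)
      refine ⟨0 - S, ?_⟩
      rw [h1]
      exact (hlim1.sub hlim2).congr (fun m => (h2 m).symm)
    · have hs : Summable fun j : ℕ => x.2 ^ j / (j : ℂ) ^ x.1 * tr l j := by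
        refine summable_of_bound _ C fun m hm => ?_
        have hm' : (0 : ℝ) < m := by exact_mod_cast hm
        rw [norm_mul]
        calc ‖x.2 ^ m / (m : ℂ) ^ x.1‖ * ‖tr l m‖ ≤ 1 / (m : ℝ) ^ 2 * (C * (m : ℝ) ^ (1 / 2 : ℝ)) :=
              mul_le_mul (term_norm_le x hx2 m hm 2 ha) (h m hm) (norm_nonneg _) (by positivity)
          _ = C * ((m : ℝ) ^ (-2 : ℝ) * (m : ℝ) ^ (1 / 2 : ℝ)) := by
              rw [Real.rpow_neg hm'.le, Real.rpow_two]; ring
          _ = _ := by rw [← Real.rpow_add hm']; norm_num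
      obtain ⟨S, hS⟩ := hs
      refine ⟨S, ?_⟩
      have := hS.tendsto_sum_nat
      refine this.congr fun m => ?_
      rw [tr_cons' x hx1]

end Pool.Agent.U823.MV
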